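import Mathlib
import Pool.Agent.Helper9.NS
import Pool.Agent.Helper15.GT.RP

/-!
# JC: composite places

`Ω` is a field over `k`, `M` a field over `Ω`. The composite `cmp x P` of the rational place `x` of `M` over `Ω` and of the
rational place `P` of `Ω` over `k` is a rational place of `M` over `k`.
-/

set_option linter.unusedSectionVars false

namespace Pool.Agent.Helper98.JC

open VC VF Pool.Agent.Helper15.GT

universe u

section

variable {k Ω M : Type u} [Field k] [Field Ω] [Field M] [Algebra k Ω] [Algebra Ω M] [Algebra k M]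
  [IsScalarTower k Ω M]

/-- The valuation ring of the composite place. -/
def cring (x : RPl Ω M) (P : RPl k Ω) : ValuationSubring M where
  carrier := {z | ∃ a : Ω, Rs x z a ∧ a ∈ P.ring}
  mul_mem' := by
    rintro y z ⟨a, ha, ha'⟩ ⟨b, hb, hb'⟩
    exact ⟨a * b, ha.mul hb, P.ring.mul_mem _ _ ha' hb'⟩
  one_mem' := ⟨1, rs_one, P.ring.one_mem⟩
  add_mem' := by
    rintro y z ⟨a, ha, ha'⟩ ⟨b, hb, hb'⟩
    exact ⟨a + b, ha.add hb, P.ring.add_mem _ _ ha' hb'⟩
  zero_mem' := ⟨0, rs_zero, P.ring.zero_mem⟩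
  neg_mem' := by
    rintro z ⟨a, ha, ha'⟩
    exact ⟨-a, ha.neg, P.ring.neg_mem _ ha'⟩
  mem_or_inv_mem' := by
    intro z
    by_cases hz : z ∈ x.ring
    · obtain ⟨a, ha⟩ := exists_rs hz
      by_cases h : a ∈ P.ring
      · exact Or.inl ⟨a, ha, h⟩
      · right
        have ha0 : a ≠ 0 := by
          rintro rfl
          exact h P.ring.zero_mem
        exact ⟨a⁻¹, ha.inv ha0, (P.ring.mem_or_inv_mem a).resolve_left h⟩
    · right
      refine ⟨0, ?_, P.ring.zero_mem⟩
      rw [rs_zero_iff, ValuationSubring.mem_nonunits_iff_or, inv_inv]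
      exact Or.inr hz

lemma mem_cring {x : RPl Ω M} {P : RPl k Ω} {z : M} : z ∈ cring x P ↔ ∃ a : Ω, Rs x z a ∧ a ∈ P.ring := Iff.rfl

lemma nonunit_cring {x : RPl Ω M} {P : RPl k Ω} {z : M} :
    z ∈ (cring x P).nonunits ↔ ∃ a : Ω, Rs x z a ∧ a ∈ P.ring.nonunits := by
  constructor
  · intro h
    obtain ⟨a, ha, ha'⟩ := nonunits_le h
    refine ⟨a, ha, ?_⟩
    rw [ValuationSubring.mem_nonunits_iff_or]
    by_contra hcon
    push Not at hcon
    rw [ValuationSubring.mem_nonunits_iff_or] at h
    rcases h with h | h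
    · rw [h] at ha
      exact hcon.1 (ha.unique rs_zero)
    · exact h ⟨a⁻¹, ha.inv hcon.1, hcon.2⟩
  · rintro ⟨a, ha, ha'⟩
    rw [ValuationSubring.mem_nonunits_iff_or]
    by_contra hcon
    push Not at hcon
    obtain ⟨b, hb, hb'⟩ := hcon.2
    have h1 := ha.mul hb
    rw [mul_inv_cancel₀ hcon.1] at h1
    have h2 : a * b = 1 := h1.unique rs_one
    rw [ValuationSubring.mem_nonunits_iff_or] at ha'
    rcases ha' with h | h
    · rw [h, zero_mul] at h2
      exact zero_ne_one h2
    · apply h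
      rw [← eq_inv_of_mul_eq_one_right h2]
      exact hb'

/-- The composite of the rational place `x` of `M` over `Ω` and of the rational place `P` of `Ω` over `k`. -/
def cmp (x : RPl Ω M) (P : RPl k Ω) : RPl k M where
  ring := cring x P
  alg c := by
    refine ⟨algebraMap k Ω c, ?_, P.alg c⟩
    rw [IsScalarTower.algebraMap_apply k Ω M]
    exact rs_const _
  res := by
    rintro z ⟨a, ha, ha'⟩
    obtain ⟨c, hc⟩ := P.res a ha'
    refine ⟨c, nonunit_cring.mpr ⟨a - algebraMap k Ω c, ?_, hc⟩⟩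
    rw [IsScalarTower.algebraMap_apply k Ω M]
    exact ha.sub (rs_const _)

/-- The values at the composite place. -/
theorem rs_cmp {x : RPl Ω M} {P : RPl k Ω} {z : M} {c : k} : Rs (cmp x P) z c ↔ ∃ a : Ω, Rs x z a ∧ Rs P a c := by
  unfold Rs
  change z - algebraMap k M c ∈ (cring x P).nonunits ↔ _
  rw [nonunit_cring]
  constructor
  · rintro ⟨a, ha, ha'⟩
    refine ⟨a + algebraMap k Ω c, ?_, ?_⟩
    · have h1 := ha.add (rs_const (w := x) (algebraMap k Ω c))
      rw [← IsScalarTower.algebraMap_apply k Ω M, sub_add_cancel] at h1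
      exact h1
    · rw [add_sub_cancel_right]
      exact ha'
  · rintro ⟨a, ha, ha'⟩
    refine ⟨a - algebraMap k Ω c, ?_, ha'⟩
    rw [IsScalarTower.algebraMap_apply k Ω M]
    exact Rs.sub (w := x) ha (rs_const _)

/-- The restriction of a composite place to a subfield. -/
theorem cmp_comap {M' : Type u} [Field M'] [Algebra Ω M'] [Algebra k M'] [IsScalarTower k Ω M'] (x : RPl Ω M)
    (P : RPl k Ω) (f : M' →ₐ[Ω] M) : (cmp x P).comap (f.restrictScalars k) = cmp (x.comap f) P := by
  ext z
  change f z ∈ cring x P ↔ z ∈ cring (x.comap f) P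
  rw [mem_cring, mem_cring]
  simp only [rs_comap]

/-- The restriction of a composite place to `Ω`. -/
theorem cmp_base (x : RPl Ω M) (P : RPl k Ω) : (cmp x P).comap (IsScalarTower.toAlgHom k Ω M) = P := by
  ext z
  change algebraMap Ω M z ∈ cring x P ↔ z ∈ P.ring
  rw [mem_cring]
  constructor
  · rintro ⟨a, ha, ha'⟩
    rwa [ha.unique (rs_const z)] at ha'
  · intro h
    exact ⟨z, rs_const z, h⟩

end

section

variable {Ω M : Type u} [Field Ω] [IsAlgClosed Ω] [CharZero Ω] [Field M] [Algebra Ω M]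

/-- A place of a function field as a rational place. -/
def rp (hM : IsFunctionField Ω M) (v : Place Ω M) : RPl Ω M where
  ring := v.ring
  alg := v.algebraMap_mem
  res _ hz := exists_res hM hz

lemma rp_comap {M' : Type u} [Field M'] [Algebra Ω M'] (hM : IsFunctionField Ω M) (hM' : IsFunctionField Ω M')
    (f : M' →ₐ[Ω] M) (v : Place Ω M) : (rp hM v).comap f = rp hM' (Place.comap hM' hM f v) := by
  ext z
  rfl

end

end Pool.Agent.Helper98.JC
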