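import Mathlib
import Pool.Agent.Helper9.NS
import Pool.Agent.Helper15.KP.HFb
import Pool.Agent.Helper83.VF.Fields

/-!
# JC: harmonic functions on the rational places of `Ω(t)`, `Ω` algebraic over the function field of a curve
-/

set_option linter.unusedSectionVars false

namespace Pool.Agent.Helper98.JC

open VC VF Pool.Agent.Helper15.GT Pool.Agent.Helper15.KP Pool.Agent.Helper21.TO Polynomial

universe u

section

variable {k : Type u} [Field k] [IsAlgClosed k] [CharZero k] {L E : Type u} [Field L] [Algebra k L] [Field E]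
  [Algebra k E]

lemma kills_eq {M : ℕ} {I J : Set (MvPolynomial (Fin M) k)} (h : I = J) (φ : (proj k I).Pt → k)
    (hφ : Kills (proj k I) φ) : ∃ φ' : (proj k J).Pt → k, Kills (proj k J) φ' ∧
      ∀ (b : Fin M → k) (hb : b ≠ 0) (hs : Sat I b) (hs' : Sat J b), φ (ppt b hb hs) = φ' (ppt b hb hs') := by
  subst h
  exact ⟨φ, hφ, fun b hb hs hs' => rfl⟩

/-- A harmonic function which is given by a point with coordinates in a subfield comes from the subfield. -/
theorem hf_descend (f : L →ₐ[k] E) {M : ℕ} (ξ : Fin M → E) (hξ : ξ ≠ 0) (φ : (proj k (van k ξ)).Pt → k)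
    (hφ : Kills (proj k (van k ξ)) φ) (hr : ∀ i, ξ i ∈ Set.range f) :
    ∃ u' : RPl k L → k, HF k L u' ∧ ∀ w, φ (evP ξ hξ w) = u' (w.comap f) := by
  choose ξ' hξ' using hr
  obtain rfl : ξ = fun i => f (ξ' i) := funext fun i => (hξ' i).symm
  have hξ0 : ξ' ≠ 0 := by
    rintro rfl
    apply hξ
    funext i
    exact map_zero f
  obtain ⟨φ', hφ', h⟩ := kills_eq (van_hom f ξ') φ hφ
  refine ⟨fun w => φ' (evP ξ' hξ0 w), ⟨M, ξ', hξ0, φ', hφ', fun w => rfl⟩, fun w => ?_⟩
  obtain ⟨b, hb, hs, hv, he⟩ := exists_evP ξ' hξ0 (w.comap f)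
  beta_reduce
  rw [he, evP_eq hξ hv.comap hb hv.comap.sat]
  exact h b hb _ hs

end

/-- The quotients of values of polynomials at `t` form a subfield. -/
def ratF {K E : Type*} [Field K] [Field E] (κ : K →+* E) (t : E) : Subfield E where
  carrier := {z | ∃ p q : K[X], q.eval₂ κ t ≠ 0 ∧ z * q.eval₂ κ t = p.eval₂ κ t}
  mul_mem' := by
    rintro y z ⟨p, q, h1, h2⟩ ⟨p', q', h1', h2'⟩
    refine ⟨p * p', q * q', ?_, ?_⟩
    · rw [eval₂_mul]
      exact mul_ne_zero h1 h1'
    · rw [eval₂_mul, eval₂_mul, ← h2, ← h2']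
      ring
  one_mem' := ⟨1, 1, by rw [eval₂_one]; exact one_ne_zero, by rw [one_mul]⟩
  add_mem' := by
    rintro y z ⟨p, q, h1, h2⟩ ⟨p', q', h1', h2'⟩
    refine ⟨p * q' + p' * q, q * q', ?_, ?_⟩
    · rw [eval₂_mul]
      exact mul_ne_zero h1 h1'
    · rw [eval₂_mul, eval₂_add, eval₂_mul, eval₂_mul, ← h2, ← h2']
      ring
  zero_mem' := ⟨0, 1, by rw [eval₂_one]; exact one_ne_zero, by rw [zero_mul, eval₂_zero]⟩
  neg_mem' := by
    rintro z ⟨p, q, h1, h2⟩
    exact ⟨-p, q, h1, by rw [eval₂_neg, ← h2]; ring⟩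
  inv_mem' := by
    rintro z ⟨p, q, h1, h2⟩
    by_cases hz : z = 0
    · refine ⟨0, 1, by rw [eval₂_one]; exact one_ne_zero, ?_⟩
      rw [hz, inv_zero, zero_mul, eval₂_zero]
    · refine ⟨q, p, ?_, ?_⟩
      · rw [← h2]
        exact mul_ne_zero hz h1
      · rw [← h2, inv_mul_cancel_left₀ hz]

lemma ratF_base {K E : Type*} [Field K] [Field E] (κ : K →+* E) (t : E) (a : K) : κ a ∈ ratF κ t :=
  ⟨C a, 1, by rw [eval₂_one]; exact one_ne_zero, by rw [eval₂_one, mul_one, eval₂_C]⟩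

lemma ratF_gen {K E : Type*} [Field K] [Field E] (κ : K →+* E) (t : E) : t ∈ ratF κ t :=
  ⟨X, 1, by rw [eval₂_one]; exact one_ne_zero, by rw [eval₂_one, mul_one, eval₂_X]⟩

/-- A harmonic function on the rational places of `Ω(t)` depends only on the restriction to `Ω`. -/
theorem ruled_alg {k K Ω E : Type u} [Field k] [IsAlgClosed k] [CharZero k] [Field K] [Algebra k K]
    (hK : IsFunctionField k K) [Field Ω] [Algebra k Ω] [Algebra K Ω] [IsScalarTower k K Ω]
    [Algebra.IsAlgebraic K Ω] [Field E] [Algebra k E] (κ : Ω →ₐ[k] E) (t : E)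
    (ht : ∀ p : Polynomial Ω, p.eval₂ (κ : Ω →+* E) t = 0 → p = 0) (hgen : ∀ z : E, z ∈ ratF (κ : Ω →+* E) t)
    {u : RPl k E → k} (hu : HF k E u) {w w' : RPl k E} (h : w.comap κ = w'.comap κ) : u w = u w' := by
  classical
  obtain ⟨M, ξ, hξ, φ, hφ, hu⟩ := hu
  choose p q hq hpq using fun i => hgen (ξ i)
  -- the finite extension which contains the coefficients
  let S : Set Ω := ↑(Finset.univ.biUnion fun i => (p i).coeffs ∪ (q i).coeffs)
  have hSp : ∀ i, ∀ n, (p i).coeff n ∈ IntermediateField.adjoin K S := by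
    intro i n
    by_cases h0 : (p i).coeff n = 0
    · rw [h0]
      exact zero_mem _
    · apply IntermediateField.subset_adjoin
      change _ ∈ (Finset.univ.biUnion fun i => (p i).coeffs ∪ (q i).coeffs)
      rw [Finset.mem_biUnion]
      refine ⟨i, Finset.mem_univ _, Finset.mem_union_left _ ?_⟩
      exact Polynomial.coeff_mem_coeffs h0
  have hSq : ∀ i, ∀ n, (q i).coeff n ∈ IntermediateField.adjoin K S := by
    intro i n
    by_cases h0 : (q i).coeff n = 0
    · rw [h0]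
      exact zero_mem _
    · apply IntermediateField.subset_adjoin
      change _ ∈ (Finset.univ.biUnion fun i => (p i).coeffs ∪ (q i).coeffs)
      rw [Finset.mem_biUnion]
      refine ⟨i, Finset.mem_univ _, Finset.mem_union_right _ ?_⟩
      exact Polynomial.coeff_mem_coeffs h0
  let K' := IntermediateField.adjoin K S
  have hfinS : Finite S := Finset.finite_toSet _
  have : FiniteDimensional K K' :=
    IntermediateField.finiteDimensional_adjoin fun x _ => (Algebra.IsAlgebraic.isAlgebraic x).isIntegral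
  have hK' : IsFunctionField k K' := ff_ext hK
  let ι : K' →ₐ[k] Ω := (K'.val.restrictScalars k)
  let L := IntermediateField.adjoin k (Set.range (κ.comp ι) ∪ {t})
  have hκL : ∀ a : K', κ (ι a) ∈ L := fun a => IntermediateField.subset_adjoin k _ (Or.inl ⟨a, rfl⟩)
  have htL : t ∈ L := IntermediateField.subset_adjoin k _ (Or.inr rfl)
  let κ' : K' →ₐ[k] L := (κ.comp ι).codRestrict L.toSubalgebra hκL
  have hpoly : ∀ r : Polynomial Ω, (∀ n, r.coeff n ∈ K') → r.eval₂ (κ : Ω →+* E) t ∈ L := by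
    intro r hr
    rw [eval₂_eq_sum_range]
    refine sum_mem fun n _ => mul_mem ?_ (pow_mem htL n)
    exact hκL ⟨r.coeff n, hr n⟩
  have hξL : ∀ i, ξ i ∈ Set.range L.val := by
    intro i
    have h1 : ξ i = (p i).eval₂ (κ : Ω →+* E) t / (q i).eval₂ (κ : Ω →+* E) t := by
      rw [eq_div_iff (hq i), hpq i]
    refine ⟨⟨ξ i, ?_⟩, rfl⟩
    rw [h1]
    exact div_mem (hpoly _ (hSp i)) (hpoly _ (hSq i))
  obtain ⟨u', hu', h1⟩ := hf_descend L.val ξ hξ φ hφ hξL
  -- the field `L` is `K' (t)`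
  have hev : ∀ r : K'[X], ((r.eval₂ (κ' : K' →+* L) ⟨t, htL⟩ : L) : E) = (r.map (ι : K' →+* Ω)).eval₂ (κ : Ω →+* E) t := by
    intro r
    rw [eval₂_map]
    change L.val (r.eval₂ (κ' : K' →+* L) ⟨t, htL⟩) = _
    have h2 := Polynomial.hom_eval₂ r (κ' : K' →+* L) (L.val : L →+* E) ⟨t, htL⟩
    exact h2
  have hratL : ∀ z : L, (z : E) ∈ (ratF (κ' : K' →+* L) ⟨t, htL⟩).map (L.val : L →+* E) := by
    rintro ⟨z, hz⟩
    change z ∈ _
    induction hz using IntermediateField.adjoin_induction with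
    | mem x hx =>
      rcases hx with ⟨a, rfl⟩ | hx
      · exact ⟨κ' a, ratF_base _ _ a, rfl⟩
      · rw [Set.mem_singleton_iff.mp hx]
        exact ⟨⟨t, htL⟩, ratF_gen _ _, rfl⟩
    | algebraMap c =>
      refine ⟨κ' (algebraMap k K' c), ratF_base _ _ _, ?_⟩
      rw [AlgHom.commutes]
      rfl
    | add x y _ _ hx hy => exact add_mem hx hy
    | mul x y _ _ hx hy => exact mul_mem hx hy
    | inv x _ hx => exact inv_mem hx
  obtain ⟨l, hl, h2⟩ := HF.ruled hK' κ' (⟨t, htL⟩ : L) (fun r hr => by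
    have h3 := hev r
    rw [hr] at h3
    have h4 := ht _ h3.symm
    exact (Polynomial.map_eq_zero_iff ι.toRingHom.injective).mp h4) (fun z => by
    obtain ⟨z', hz', hz''⟩ := hratL z
    have : z' = z := Subtype.ext hz''
    rw [this] at hz'
    exact hz') hu'
  rw [hu w, hu w', h1 w, h1 w', h2, h2]
  congr 1
  rw [pl_comap, pl_comap]
  have h3 : ∀ w : RPl k E, w.pl hK' (L.val.comp κ') = (w.comap κ).pl hK' ι := by
    intro w
    rw [pl_comap]
    rfl
  rw [h3, h3, h]

end Pool.Agent.Helper98.JC
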