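import Mathlib
import Pool.Agent.Helper9.NS
import Pool.Agent.Helper98.JC.Cmp
import Pool.Agent.Helper98.JC.Ruled
import Pool.Agent.Helper26.VC.Main4
import Pool.Agent.Helper17.FF.RR

/-!
# JC: a harmonic function is orthogonal to the principal divisors of the generic fibre
-/

set_option linter.unusedSectionVars false

namespace Pool.Agent.Helper98.JC

open VC VF Pool.Agent.Helper15.GT Pool.Agent.Helper15.KP Pool.Agent.Helper21.TO Polynomial IntermediateField

universe u

open Classical in
/-- Counting the places `x` by the embeddings. -/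
lemma sum_embeddings {Ω M N : Type u} {R : Type*} [Field Ω] [IsAlgClosed Ω] [CharZero Ω] [Field M] [Algebra Ω M] [Field N]
    [Algebra Ω N] [Algebra M N] [IsScalarTower Ω M N] [CommRing R] (hM : IsFunctionField Ω M)
    (hN : IsFunctionField Ω N) (g : M) (hg0 : g ≠ 0) (hg : Transcendental Ω g) (G : Type*) [Group G] [Finite G]
    [MulSemiringAction G N] (hG : IsGaloisGroup G Ω⟮algebraMap M N g⟯ N) (v : Place Ω N)
    (hv : algebraMap M N g ∈ v.ring.nonunits) (Φ : Type*) [Fintype Φ] (c : Φ → (M →ₐ[Ω] N)) (hc : Function.Injective c)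
    (hc' : ∀ φ : M →ₐ[Ω] N, φ g = algebraMap M N g ↔ φ ∈ Set.range c) (F : Place Ω M → R) :
    ∑ φ, F (Place.comap hM hN (c φ) v) =
      ∑ x ∈ (finite_support_ord hM hg0).toFinset, ((max (ord x.ring g) 0 : ℤ) : R) * F x := by
  have hcount : ∀ x : Place Ω M, ((max (ord x.ring g) 0 : ℤ) : R) =
      ((Finset.univ.filter fun φ => Place.comap hM hN (c φ) v = x).card : R) := by
    intro x
    rw [← card_cover (F := M) (K := N) hM hN g hg G hG v hv x]
    rw [Int.cast_natCast]
    congr 1
    rw [← Fintype.card_subtype, ← Nat.card_eq_fintype_card]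
    refine Nat.card_congr (Equiv.ofBijective (fun φ : {φ : M →ₐ[Ω] N // φ g = algebraMap M N g ∧
      Place.comap hM hN φ v = x} => (⟨((hc' φ.1).mp φ.2.1).choose, by
        rw [((hc' φ.1).mp φ.2.1).choose_spec]
        exact φ.2.2⟩ : {φ : Φ // Place.comap hM hN (c φ) v = x})) ⟨?_, ?_⟩)
    · intro φ ψ h
      apply Subtype.ext
      rw [← ((hc' φ.1).mp φ.2.1).choose_spec, ← ((hc' ψ.1).mp ψ.2.1).choose_spec]
      exact congrArg c (congrArg Subtype.val h)
    · intro φ
      refine ⟨⟨c φ.1, (hc' _).mpr ⟨φ.1, rfl⟩, φ.2⟩, ?_⟩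
      apply Subtype.ext
      apply hc
      exact ((hc' (c φ.1)).mp ((hc' _).mpr ⟨φ.1, rfl⟩)).choose_spec
  have hmem : ∀ φ, Place.comap hM hN (c φ) v ∈ (finite_support_ord hM hg0).toFinset := by
    intro φ
    rw [Set.Finite.mem_toFinset]
    change ord (Place.comap hM hN (c φ) v).ring g ≠ 0
    have h1 : g ∈ (Place.comap hM hN (c φ) v).ring.nonunits := by
      change g ∈ (v.ring.comap (c φ).toRingHom).nonunits
      rw [mem_nonunits_comap]
      change (c φ) g ∈ _
      rw [(hc' _).mpr ⟨φ, rfl⟩]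
      exact hv
    have h2 := (ord_pos_iff hM _ hg0).mpr h1
    omega
  have h1 : ∀ φ, F (Place.comap hM hN (c φ) v) = ∑ x ∈ (finite_support_ord hM hg0).toFinset,
      if Place.comap hM hN (c φ) v = x then F x else 0 := by
    intro φ
    rw [Finset.sum_ite_eq, if_pos (hmem φ)]
  rw [Finset.sum_congr rfl fun φ _ => h1 φ, Finset.sum_comm]
  refine Finset.sum_congr rfl fun x _ => ?_
  rw [hcount, ← Finset.sum_filter, Finset.sum_const, nsmul_eq_mul]

/-- A harmonic function is orthogonal to the principal divisors of the generic fibre. -/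
theorem orth {k K Ω M : Type u} [Field k] [IsAlgClosed k] [CharZero k] [Field K] [Algebra k K]
    (hK : IsFunctionField k K) [Field Ω] [IsAlgClosed Ω] [CharZero Ω] [Algebra k Ω] [Algebra K Ω]
    [IsScalarTower k K Ω] [Algebra.IsAlgebraic K Ω] [Field M] [Algebra Ω M] [Algebra k M] [IsScalarTower k Ω M]
    (hM : IsFunctionField Ω M) {u : RPl k M → k} (hu : HF k M u) (P : RPl k Ω) (g : M) (hg : g ≠ 0) :
    ∑ x ∈ (finite_support_ord hM hg).toFinset, ((ord x.ring g : ℤ) : k) * u (cmp (rp hM x) P) = 0 := by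
  classical
  by_cases hgt : Transcendental Ω g
  · obtain ⟨N, _, _, _, _, hN, G, _, _, _, hG⟩ := exists_cover hM g hgt
    let _ : Algebra k N := ((algebraMap Ω N).comp (algebraMap k Ω)).toAlgebra
    have _ : IsScalarTower k Ω N := IsScalarTower.of_algebraMap_eq fun c => rfl
    set t := algebraMap M N g with ht
    have htN : Transcendental Ω t := (transcendental_algebraMap_iff (algebraMap M N).injective).mpr hgt
    have ht0 : t ≠ 0 := (_root_.map_ne_zero _).mpr hg
    -- the embeddings
    let Φ := {φ : M →ₐ[Ω] N // φ g = t}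
    have hΦ : Finite Φ := finite_homs (K := N) g (hM.finiteDimensional hgt)
    let _ : Fintype Φ := Fintype.ofFinite _
    have hΦn : Nonempty Φ := ⟨⟨IsScalarTower.toAlgHom Ω M N, rfl⟩⟩
    let f : Φ → M →ₐ[k] N := fun φ => φ.1.restrictScalars k
    let E := Ω⟮t⟯
    let e : E →ₐ[k] N := E.val.restrictScalars k
    -- the group
    have hcomm : ∀ (σ : G) (a : Ω), σ • algebraMap Ω N a = algebraMap Ω N a := by
      intro σ a
      have h1 := hG.commutes.smul_comm σ (algebraMap Ω E a) (1 : N)
      rw [Algebra.smul_def, Algebra.smul_def, smul_one, mul_one] at h1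
      exact h1
    have hcommt : ∀ σ : G, σ • t = t := by
      intro σ
      have h1 := hG.commutes.smul_comm σ (⟨t, mem_adjoin_simple_self Ω t⟩ : E) (1 : N)
      rw [Algebra.smul_def, Algebra.smul_def, smul_one, mul_one] at h1
      exact h1
    let τ : G → (N ≃ₐ[Ω] N) := fun σ =>
      { MulSemiringAction.toRingEquiv G N σ with
        commutes' := hcomm σ }
    have hτ : ∀ σ z, τ σ z = σ • z := fun σ z => rfl
    let H : Set (N ≃ₐ[k] N) := Set.range fun σ : G => (τ σ).restrictScalars k
    have he : ∀ z : N, (∀ σ ∈ H, σ z = z) → z ∈ Set.range e := by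
      intro z hz
      obtain ⟨a, ha⟩ := hG.isInvariant.isInvariant z fun σ => hz _ ⟨σ, rfl⟩
      exact ⟨a, ha⟩
    have hp : ∀ σ ∈ H, ∃ π : Equiv.Perm Φ, ∀ j x, σ (f j x) = f (π j) x := by
      rintro _ ⟨σ, rfl⟩
      refine ⟨⟨fun φ => ⟨((τ σ : N ≃ₐ[Ω] N) : N →ₐ[Ω] N).comp φ.1, ?_⟩,
        fun φ => ⟨((τ σ⁻¹ : N ≃ₐ[Ω] N) : N →ₐ[Ω] N).comp φ.1, ?_⟩, ?_, ?_⟩, fun j x => rfl⟩
      · change σ • (φ.1 g) = t
        rw [φ.2, hcommt]
      · change σ⁻¹ • (φ.1 g) = t
        rw [φ.2, hcommt]
      · intro φ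
        apply Subtype.ext
        ext x
        change σ⁻¹ • (σ • (φ.1 x)) = φ.1 x
        rw [inv_smul_smul]
      · intro φ
        apply Subtype.ext
        ext x
        change σ • (σ⁻¹ • (φ.1 x)) = φ.1 x
        rw [smul_inv_smul]
    obtain ⟨u', hu', h1⟩ := HF.fam f e H he hp hu
    -- the function on `Ω(t)`
    let κ : Ω →ₐ[k] E := IsScalarTower.toAlgHom k Ω E
    let t' : E := ⟨t, mem_adjoin_simple_self Ω t⟩
    have hev : ∀ p : Polynomial Ω, ((p.eval₂ (κ : Ω →+* E) t' : E) : N) = aeval t p := by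
      intro p
      exact Polynomial.hom_eval₂ p (κ : Ω →+* E) (E.val : E →+* N) t'
    have htr : ∀ p : Polynomial Ω, p.eval₂ (κ : Ω →+* E) t' = 0 → p = 0 := by
      intro p hp0
      by_contra hne
      apply htN
      refine ⟨p, hne, ?_⟩
      rw [← hev, hp0]
      rfl
    have hgen : ∀ z : E, z ∈ ratF (κ : Ω →+* E) t' := by
      have h2 : ∀ z : E, (z : N) ∈ (ratF (κ : Ω →+* E) t').map (E.val : E →+* N) := by
        rintro ⟨z, hz⟩
        change z ∈ _
        induction hz using IntermediateField.adjoin_induction with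
        | mem x hx =>
          rw [Set.mem_singleton_iff.mp hx]
          exact ⟨t', ratF_gen _ _, rfl⟩
        | algebraMap c => exact ⟨κ c, ratF_base _ _ _, rfl⟩
        | add x y _ _ hx hy => exact add_mem hx hy
        | mul x y _ _ hx hy => exact mul_mem hx hy
        | inv x _ hx => exact inv_mem hx
      intro z
      obtain ⟨z', hz', hz''⟩ := h2 z
      have h3 : z' = z := Subtype.ext hz''
      rwa [h3] at hz'
    -- the two places
    obtain ⟨v, hv⟩ := exists_place hN htN
    have htN' : Transcendental Ω t⁻¹ := by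
      intro h
      apply htN
      have := h.inv
      rwa [inv_inv] at this
    obtain ⟨v', hv'⟩ := exists_place hN htN'
    have h2 : u' ((cmp (rp hN v) P).comap e) = u' ((cmp (rp hN v') P).comap e) := by
      apply ruled_alg hK κ t' htr hgen hu'
      have h3 : ∀ x : RPl Ω N, ((cmp x P).comap e).comap κ = P := by
        intro x
        rw [RPl.comap_comap]
        exact cmp_base x P
      rw [h3, h3]
    rw [h1, h1] at h2
    have h3 : ∀ (v : Place Ω N) (φ : Φ), u ((cmp (rp hN v) P).comap (f φ)) =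
        u (cmp (rp hM (Place.comap hM hN φ.1 v)) P) := by
      intro v φ
      rw [← rp_comap hN hM φ.1 v, ← cmp_comap]
    simp only [h3] at h2
    rw [sum_embeddings hM hN g hg hgt G hG v hv Φ (fun φ => φ.1) Subtype.val_injective
      (fun φ => ⟨fun h => ⟨⟨φ, h⟩, rfl⟩, fun ⟨ψ, h⟩ => by rw [← h]; exact ψ.2⟩) (fun x => u (cmp (rp hM x) P))] at h2
    have hg' : g⁻¹ ≠ 0 := inv_ne_zero hg
    have hgt' : Transcendental Ω g⁻¹ := by
      intro h
      apply hgt
      have := h.inv
      rwa [inv_inv] at this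
    have hinv : algebraMap M N g⁻¹ = t⁻¹ := map_inv₀ _ _
    have hG' : IsGaloisGroup G Ω⟮algebraMap M N g⁻¹⟯ N := by
      have key : ∀ E' : IntermediateField Ω N, E' = Ω⟮t⟯ → IsGaloisGroup G E' N := by
        rintro _ rfl
        exact hG
      apply key
      rw [hinv]
      apply le_antisymm
      · rw [adjoin_simple_le_iff]
        exact inv_mem (mem_adjoin_simple_self Ω t)
      · rw [adjoin_simple_le_iff]
        have := inv_mem (mem_adjoin_simple_self Ω t⁻¹)
        rwa [inv_inv] at this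
    rw [sum_embeddings hM hN g⁻¹ hg' hgt' G hG' v' (by rw [hinv]; exact hv') Φ (fun φ => φ.1)
      Subtype.val_injective
      (fun φ => ⟨fun h => ⟨⟨φ, by rw [map_inv₀, hinv, inv_inj] at h; exact h⟩, rfl⟩, fun ⟨ψ, h⟩ => by
        rw [← h, map_inv₀, hinv, ψ.2]⟩) (fun x => u (cmp (rp hM x) P))] at h2
    have h4 : (finite_support_ord hM hg').toFinset = (finite_support_ord hM hg).toFinset := by
      ext x
      rw [Set.Finite.mem_toFinset, Set.Finite.mem_toFinset]
      change ord x.ring g⁻¹ ≠ 0 ↔ ord x.ring g ≠ 0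
      rw [ord_inv hM x hg, neg_ne_zero]
    rw [h4, ← sub_eq_zero, ← Finset.sum_sub_distrib] at h2
    rw [← h2]
    refine Finset.sum_congr rfl fun x _ => ?_
    rw [ord_inv hM x hg, ← sub_mul, ← Int.cast_sub]
    congr 2
    omega
  · obtain ⟨c, hc⟩ := FF.exists_const_of_not_transcendental hgt
    have hc0 : c ≠ 0 := by
      rintro rfl
      exact hg (by rw [← hc, map_zero])
    apply Finset.sum_eq_zero
    intro x hx
    rw [Set.Finite.mem_toFinset] at hx
    exfalso
    apply hx
    rw [← hc]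
    exact ord_algebraMap hM x hc0

end Pool.Agent.Helper98.JC
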