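import Mathlib
import Pool.Agent.Helper9.NS
import Pool.Agent.Helper26.VC.Main3

/-!
# JC: push-forward and pull-back of divisors
-/

set_option linter.unusedSectionVars false

namespace Pool.Agent.Helper98.JC

open VC VF

universe u

variable {Ω M E : Type u} [Field Ω] [Field M] [Algebra Ω M] [Field E] [Algebra Ω E]

/-- The push-forward of the divisor `D` by the morphism given by `Ψ : E → M`. -/
noncomputable def push (hM : IsFunctionField Ω M) (hE : IsFunctionField Ω E) (Ψ : E →ₐ[Ω] M) (D : Place Ω M →₀ ℤ) :
    Place Ω E →₀ ℤ :=
  D.mapDomain (Place.comap hE hM Ψ)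

/-- The divisor `D'` is the pull-back of the divisor `D` by the morphism given by `Φ : E → M`: the multiplicity of `D'` at
`z` is the multiplicity of `D` at the image of `z`, times the order at `z` of any function `t` of order one at the image. -/
def IsPull (hM : IsFunctionField Ω M) (hE : IsFunctionField Ω E) (Φ : E →ₐ[Ω] M) (D : Place Ω E →₀ ℤ)
    (D' : Place Ω M →₀ ℤ) : Prop :=
  ∀ (z : Place Ω M) (t : E), ord (Place.comap hE hM Φ z).ring t = 1 →
    D' z = ord z.ring (Φ t) * D (Place.comap hE hM Φ z)

end Pool.Agent.Helper98.JC
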