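import Mathlib
import Pool.Agent.Helper9.NS
import Pool.Agent.Helper98.JC.Orth
import Pool.Agent.Helper98.JC.Pull
import Pool.Agent.Helper79.JC.Defs
import Pool.Agent.Helper15.JC.Tr
import Pool.Agent.Helper21.TB.Pull

/-!
# JC: the correspondences on the generic fibre in terms of pull-back and push-forward of divisors
-/

set_option linter.unusedSectionVars false

namespace Pool.Agent.Helper98.JC

open VC VF Pool.Agent.Helper15.GT Pool.Agent.Helper15.KP Pool.Agent.Helper21.TO Polynomial IntermediateField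
open Pool.Agent.Helper79.JC

universe u

variable {Ω M E : Type u} [Field Ω] [IsAlgClosed Ω] [CharZero Ω] [Field M] [Algebra Ω M] [Field E] [Algebra Ω E]

/-- An embedding which fixes `t` has values in each normal extension of `Ω(t)`. -/
lemma mem_of_gal {N A : Type u} [Field N] [Algebra Ω N] [Algebra M N] [IsScalarTower Ω M N] [Field A] [Algebra Ω A]
    (t : M) (G : Type*) [Group G] [Finite G] [MulSemiringAction G N] (hG : IsGaloisGroup G Ω⟮algebraMap M N t⟯ N)
    (ι : N →ₐ[Ω] A) (σ : M →ₐ[Ω] A) (hσ : σ t = ι (algebraMap M N t)) (a : M) : σ a ∈ Set.range ι := by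
  classical
  let _ : Fintype G := Fintype.ofFinite G
  set q := MulSemiringAction.charpoly G (algebraMap M N a) with hq
  have hS : ∀ c ∈ Ω⟮algebraMap M N t⟯, ∃ c' : M, algebraMap M N c' = c ∧ σ c' = ι c := by
    intro c hc
    induction hc using IntermediateField.adjoin_induction with
    | mem x hx =>
      rw [Set.mem_singleton_iff.mp hx]
      exact ⟨t, rfl, hσ⟩
    | algebraMap c =>
      refine ⟨algebraMap Ω M c, (IsScalarTower.algebraMap_apply Ω M N c).symm, ?_⟩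
      rw [AlgHom.commutes, AlgHom.commutes]
    | add x y _ _ hx hy =>
      obtain ⟨x', hx', hx''⟩ := hx
      obtain ⟨y', hy', hy''⟩ := hy
      exact ⟨x' + y', by rw [map_add, hx', hy'], by rw [map_add, map_add, hx'', hy'']⟩
    | mul x y _ _ hx hy =>
      obtain ⟨x', hx', hx''⟩ := hx
      obtain ⟨y', hy', hy''⟩ := hy
      exact ⟨x' * y', by rw [map_mul, hx', hy'], by rw [map_mul, map_mul, hx'', hy'']⟩
    | inv x _ hx =>
      obtain ⟨x', hx', hx''⟩ := hx
      exact ⟨x'⁻¹, by rw [map_inv₀, hx'], by rw [map_inv₀, map_inv₀, hx'']⟩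
  have hc : ∀ n, ∃ c' : M, algebraMap M N c' = q.coeff n ∧ σ c' = ι (q.coeff n) := by
    intro n
    obtain ⟨b, hb⟩ := hG.isInvariant.isInvariant (q.coeff n) fun g => MulSemiringAction.smul_coeff_charpoly _ _ _
    rw [← hb]
    exact hS _ b.2
  choose c' hc1 hc2 using hc
  have h1 : eval (algebraMap M N a) q = 0 := MulSemiringAction.eval_charpoly G _
  have h2 : ∑ n ∈ Finset.range (q.natDegree + 1), c' n * a ^ n = 0 := by
    apply (algebraMap M N).injective
    rw [map_zero, map_sum, ← h1, eval_eq_sum_range]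
    refine Finset.sum_congr rfl fun n _ => ?_
    rw [map_mul, map_pow, hc1]
  have h3 : q.eval₂ (ι : N →+* A) (σ a) = 0 := by
    have h4 := congrArg σ h2
    rw [map_zero, map_sum] at h4
    rw [← h4, eval₂_eq_sum_range]
    refine Finset.sum_congr rfl fun n _ => ?_
    rw [map_mul, map_pow, hc2]
    rfl
  rw [hq, MulSemiringAction.charpoly, eval₂_finsetProd, Finset.prod_eq_zero_iff] at h3
  obtain ⟨g, -, hg⟩ := h3
  rw [eval₂_sub, eval₂_X, eval₂_C, sub_eq_zero] at hg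
  exact ⟨_, hg.symm⟩

lemma fin_of_ff (hM : IsFunctionField Ω M) (hE : IsFunctionField Ω E) (Φ : E →ₐ[Ω] M) : Φ.toRingHom.Finite := by
  let _ : Algebra E M := Φ.toRingHom.toAlgebra
  have _ : IsScalarTower Ω E M := IsScalarTower.of_algebraMap_eq fun c => (Φ.commutes c).symm
  exact finite_of_isFunctionField hE hM

/-- The number of embeddings with a given restriction of the place is the ramification index, case of one morphism. -/
theorem card_fib (hM : IsFunctionField Ω M) (hE : IsFunctionField Ω E) (Φ : E →ₐ[Ω] M)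
    (x : RPl Ω (AlgebraicClosure M)) (z : Place Ω M) (t : E) (ht : ord (Place.comap hE hM Φ z).ring t = 1)
    (hz : Place.comap hE hM Φ z = x.pl hE ((Pool.Agent.Helper15.JC.iF Ω M).comp Φ)) :
    (Nat.card {σ : Pool.Agent.Helper15.JC.Emb Φ Φ // x.pl hM σ.1 = z} : ℤ) = ord z.ring (Φ t) := by
  classical
  set y := Place.comap hE hM Φ z with hy
  have ht0 : t ≠ 0 := by
    rintro rfl
    rw [FF.ord_zero] at ht
    exact zero_ne_one ht
  have htn : t ∈ y.ring.nonunits := (ord_pos_iff hE y ht0).mp (by rw [ht]; exact one_pos)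
  have htt : Transcendental Ω t := transcendental_of_mem_nonunits y ht0 htn
  have hΦ0 : Φ t ≠ 0 := (_root_.map_ne_zero _).mpr ht0
  have hΦn : Φ t ∈ z.ring.nonunits := by
    have h1 : t ∈ (z.ring.comap Φ.toRingHom).nonunits := htn
    rwa [mem_nonunits_comap] at h1
  have hΦt : Transcendental Ω (Φ t) := transcendental_of_mem_nonunits z hΦ0 hΦn
  obtain ⟨N, _, _, _, _, hN, G, _, _, _, hG⟩ := exists_cover hM (Φ t) hΦt
  have hfin : Module.Finite M N := finite_of_isFunctionField hM hN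
  let ι : N →ₐ[Ω] AlgebraicClosure M := (IsAlgClosed.lift (S := N) (R := M) (M := AlgebraicClosure M)).restrictScalars Ω
  have hι : ∀ a : M, ι (algebraMap M N a) = Pool.Agent.Helper15.JC.iF Ω M a := by
    intro a
    exact (IsAlgClosed.lift (S := N) (R := M) (M := AlgebraicClosure M)).commutes a
  set v : Place Ω N := x.pl hN ι with hv
  have hvM : ∀ (g : M →ₐ[Ω] N), Place.comap hM hN g v = x.pl hM (ι.comp g) := fun g => rfl
  let alg : M →ₐ[Ω] N := IsScalarTower.toAlgHom Ω M N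
  have hιalg : ι.comp alg = Pool.Agent.Helper15.JC.iF Ω M := by
    ext a
    exact hι a
  have hvy : Place.comap hE hN (alg.comp Φ) v = y := by
    rw [hz, ← hιalg]
    rfl
  have hvn : algebraMap M N (Φ t) ∈ v.ring.nonunits := by
    have h1 : t ∈ (v.ring.comap (alg.comp Φ).toRingHom).nonunits := by
      have h2 : (v.ring.comap (alg.comp Φ).toRingHom) = y.ring := congrArg Place.ring hvy
      rw [h2]
      exact htn
    rwa [mem_nonunits_comap] at h1
  -- only one embedding of `E`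
  let _ : Algebra E N := (alg.comp Φ).toRingHom.toAlgebra
  have _ : IsScalarTower Ω E N := IsScalarTower.of_algebraMap_eq fun c => ((alg.comp Φ).commutes c).symm
  have h1 := card_cover hE hN t htt G hG v hvn y
  rw [ht, max_eq_left one_pos.le] at h1
  have h1' : Nat.card {φ : E →ₐ[Ω] N // φ t = algebraMap E N t ∧ Place.comap hE hN φ v = y} = 1 := by
    exact_mod_cast h1
  have h2 : ∀ φ : E →ₐ[Ω] N, φ t = alg (Φ t) → Place.comap hE hN φ v = y → φ = alg.comp Φ := by
    intro φ h3 h4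
    obtain ⟨h5, -⟩ := Nat.card_eq_one_iff_unique.mp h1'
    exact congrArg Subtype.val (h5.elim ⟨φ, h3, h4⟩ ⟨alg.comp Φ, rfl, hvy⟩)
  -- the embeddings of `M`
  have h3 := card_cover hM hN (Φ t) hΦt G hG v hvn z
  rw [max_eq_left ((ord_pos_iff hM z hΦ0).mpr hΦn).le] at h3
  rw [← h3]
  congr 1
  symm
  refine Nat.card_congr (Equiv.ofBijective (fun g : {φ : M →ₐ[Ω] N // φ (Φ t) = algebraMap M N (Φ t) ∧
      Place.comap hM hN φ v = z} => (⟨⟨ι.comp g.1, ?_⟩, ?_⟩ : {σ : Pool.Agent.Helper15.JC.Emb Φ Φ // x.pl hM σ.1 = z})) ⟨?_, ?_⟩)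
  · have h4 : g.1.comp Φ = alg.comp Φ := h2 _ g.2.1 (by
      have h5 : Place.comap hE hN (g.1.comp Φ) v = Place.comap hE hM Φ (Place.comap hM hN g.1 v) := rfl
      rw [h5, g.2.2])
    rw [AlgHom.comp_assoc, h4, ← AlgHom.comp_assoc, hιalg]
  · exact g.2.2
  · intro g g' h
    apply Subtype.ext
    ext a
    have h4 := DFunLike.congr_fun (congrArg (fun σ => σ.1.1) h) a
    exact ι.toRingHom.injective h4
  · rintro ⟨⟨σ, hσ⟩, hσ'⟩
    have h4 : ∀ a, σ a ∈ ι.range := by
      intro a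
      have h5 := mem_of_gal (Φ t) G hG ι σ (by rw [hι]; exact DFunLike.congr_fun hσ t) a
      exact h5
    let g : M →ₐ[Ω] N := ((AlgEquiv.ofInjective ι ι.toRingHom.injective).symm : ι.range →ₐ[Ω] N).comp
      (σ.codRestrict ι.range h4)
    have hg : ι.comp g = σ := by
      ext a
      have h5 := (AlgEquiv.ofInjective ι ι.toRingHom.injective).apply_symm_apply (⟨σ a, h4 a⟩ : ι.range)
      exact congrArg Subtype.val h5
    refine ⟨⟨g, ?_, ?_⟩, ?_⟩
    · apply ι.toRingHom.injective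
      change (ι.comp g) (Φ t) = ι (algebraMap M N (Φ t))
      rw [hg, hι]
      exact DFunLike.congr_fun hσ t
    · rw [hvM, hg]
      exact hσ'
    · apply Subtype.ext
      apply Subtype.ext
      exact hg

/-- The number of embeddings with a given restriction of the place is the ramification index. -/
theorem card_corr (hM : IsFunctionField Ω M) (hE : IsFunctionField Ω E) (Φ Ψ : E →ₐ[Ω] M)
    (x : RPl Ω (AlgebraicClosure M)) (z : Place Ω M) (t : E) (ht : ord (Place.comap hE hM Φ z).ring t = 1)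
    (hz : Place.comap hE hM Φ z = x.pl hE ((Pool.Agent.Helper15.JC.iF Ω M).comp Ψ)) :
    (Nat.card {σ : Pool.Agent.Helper15.JC.Emb Φ Ψ // x.pl hM σ.1 = z} : ℤ) = ord z.ring (Φ t) := by
  obtain ⟨θ, hθ⟩ := Pool.Agent.Helper15.JC.exists_aut Φ Ψ (fin_of_ff hM hE Φ) (fin_of_ff hM hE Ψ)
  rw [← card_fib hM hE Φ (x.comap (θ : AlgebraicClosure M →ₐ[Ω] AlgebraicClosure M)) z t ht (by
    rw [pl_comap, hθ]
    exact hz)]
  congr 1
  symm
  refine Nat.card_congr
    { toFun := fun σ => ⟨⟨(θ : AlgebraicClosure M →ₐ[Ω] AlgebraicClosure M).comp σ.1.1, ?_⟩, ?_⟩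
      invFun := fun σ => ⟨⟨(θ.symm : AlgebraicClosure M →ₐ[Ω] AlgebraicClosure M).comp σ.1.1, ?_⟩, ?_⟩
      left_inv := fun σ => ?_
      right_inv := fun σ => ?_ }
  · rw [AlgHom.comp_assoc, σ.1.2]
    exact hθ
  · rw [← pl_comap]
    exact σ.2
  · rw [AlgHom.comp_assoc, σ.1.2, ← hθ]
    ext a
    exact θ.symm_apply_apply _
  · rw [pl_comap, ← AlgHom.comp_assoc]
    have h1 : (θ : AlgebraicClosure M →ₐ[Ω] AlgebraicClosure M).comp
        (θ.symm : AlgebraicClosure M →ₐ[Ω] AlgebraicClosure M) = AlgHom.id Ω _ := by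
      ext a
      exact θ.apply_symm_apply a
    rw [h1]
    exact σ.2
  · apply Subtype.ext
    apply Subtype.ext
    ext a
    exact θ.symm_apply_apply _
  · apply Subtype.ext
    apply Subtype.ext
    ext a
    exact θ.apply_symm_apply _

/-- The sum of the restrictions of a place along the embeddings `σ` with `σ Φ = Ψ` is the divisor `Φ^* Ψ_* x`. -/
theorem corr_pull (hM : IsFunctionField Ω M) (hE : IsFunctionField Ω E) (Φ Ψ : E →ₐ[Ω] M)
    (x : RPl Ω (AlgebraicClosure M)) :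
    IsPull hM hE Φ (push hM hE Ψ (Finsupp.single (x.pl hM (Pool.Agent.Helper15.JC.iF Ω M)) 1))
      (∑ᶠ σ : Pool.Agent.Helper15.JC.Emb Φ Ψ, Finsupp.single (x.pl hM σ.1) 1) := by
  classical
  intro z t ht
  unfold push
  have := Pool.Agent.Helper15.JC.finite_emb Φ Ψ (fin_of_ff hM hE Φ)
  let _ : Fintype (Pool.Agent.Helper15.JC.Emb Φ Ψ) := Fintype.ofFinite _
  have h0 : Place.comap hE hM Ψ (x.pl hM (Pool.Agent.Helper15.JC.iF Ω M)) =
      x.pl hE ((Pool.Agent.Helper15.JC.iF Ω M).comp Ψ) := rfl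
  rw [finsum_eq_sum_of_fintype, Finsupp.finsetSum_apply, Finsupp.mapDomain_single, h0]
  simp only [Finsupp.single_apply]
  rw [Finset.sum_boole, ← Fintype.card_subtype, ← Nat.card_eq_fintype_card]
  split_ifs with h
  · rw [mul_one]
    exact card_corr hM hE Φ Ψ x z t ht h.symm
  · rw [mul_zero, Nat.cast_eq_zero, Nat.card_eq_zero]
    left
    constructor
    rintro ⟨σ, hσ⟩
    apply h
    have h2 : σ.1.comp Φ = (Pool.Agent.Helper15.JC.iF Ω M).comp Ψ := σ.2
    rw [← hσ]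
    exact congrArg (fun e : E →ₐ[Ω] AlgebraicClosure M => x.pl hE e) h2.symm

lemma IsPull.sub {hM : IsFunctionField Ω M} {hE : IsFunctionField Ω E} {Φ : E →ₐ[Ω] M} {D D₁ : Place Ω E →₀ ℤ}
    {D' D₁' : Place Ω M →₀ ℤ} (h : IsPull hM hE Φ D D') (h₁ : IsPull hM hE Φ D₁ D₁') :
    IsPull hM hE Φ (D - D₁) (D' - D₁') := by
  intro z t ht
  rw [Finsupp.sub_apply, Finsupp.sub_apply, h z t ht, h₁ z t ht]
  ring

/-- The divisor `corr` is the divisor `Φ^* Ψ_* x`. -/
theorem corr_eq {k K F E' : Type u} [Field k] [IsAlgClosed k] [CharZero k] [Field K] [Algebra k K] [Field F]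
    [Algebra k F] [Field E'] [Algebra k E'] {κ : K →ₐ[k] F} {κE : K →ₐ[k] E'} [Algebra k Ω] [Algebra K Ω]
    [IsScalarTower k K Ω] [Algebra.IsAlgebraic K Ω] [Algebra k M] [IsScalarTower k Ω M] [Algebra k E]
    [IsScalarTower k Ω E] (D : BC κ Ω M) (D' : BC κE Ω E) (f g : E' →ₐ[k] F) (Φ Ψ : E →ₐ[Ω] M)
    (hΦ : ∀ a, Φ (D'.j a) = D.j (f a)) (hΨ : ∀ a, Ψ (D'.j a) = D.j (g a)) (x : RPl Ω (AlgebraicClosure M)) :
    corr D f g x = ∑ᶠ σ : Pool.Agent.Helper15.JC.Emb Φ Ψ, Finsupp.single (x.pl D.ff σ.1) 1 := by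
  unfold corr
  have key : ∀ σ : M →ₐ[Ω] AlgebraicClosure M, (∀ a : E', σ (D.j (f a)) = D.iA (g a)) ↔
      σ.comp Φ = (Pool.Agent.Helper15.JC.iF Ω M).comp Ψ := by
    intro σ
    constructor
    · intro h
      have h1 : Algebra.adjoin Ω (Set.range D'.j) ≤ AlgHom.equalizer (σ.comp Φ)
          ((Pool.Agent.Helper15.JC.iF Ω M).comp Ψ) := by
        rw [Algebra.adjoin_le_iff]
        rintro _ ⟨a, rfl⟩
        change σ (Φ (D'.j a)) = algebraMap M (AlgebraicClosure M) (Ψ (D'.j a))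
        rw [hΦ, hΨ]
        exact h a
      rw [D'.gen] at h1
      ext a
      exact h1 (Algebra.mem_top (x := a))
    · intro h a
      have h1 := DFunLike.congr_fun h (D'.j a)
      change σ (Φ (D'.j a)) = algebraMap M (AlgebraicClosure M) (Ψ (D'.j a)) at h1
      rw [hΦ, hΨ] at h1
      exact h1
  exact finsum_eq_of_bijective (fun σ : {σ : M →ₐ[Ω] AlgebraicClosure M // ∀ z : E', σ (D.j (f z)) = D.iA (g z)} =>
    (⟨σ.1, (key σ.1).mp σ.2⟩ : Pool.Agent.Helper15.JC.Emb Φ Ψ))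
    ⟨fun a b h => Subtype.ext (congrArg (fun σ : Pool.Agent.Helper15.JC.Emb Φ Ψ => σ.1) h), fun σ => ⟨⟨σ.1, (key σ.1).mpr σ.2⟩, rfl⟩⟩ fun σ => rfl

/-- The divisor `corr` is the pull-back of the push-forward. -/
theorem corr_isPull {k K F E' : Type u} [Field k] [IsAlgClosed k] [CharZero k] [Field K] [Algebra k K] [Field F]
    [Algebra k F] [Field E'] [Algebra k E'] {κ : K →ₐ[k] F} {κE : K →ₐ[k] E'} [Algebra k Ω] [Algebra K Ω]
    [IsScalarTower k K Ω] [Algebra.IsAlgebraic K Ω] [Algebra k M] [IsScalarTower k Ω M] [Algebra k E]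
    [IsScalarTower k Ω E] (D : BC κ Ω M) (D' : BC κE Ω E) (f g : E' →ₐ[k] F) (Φ Ψ : E →ₐ[Ω] M)
    (hΦ : ∀ a, Φ (D'.j a) = D.j (f a)) (hΨ : ∀ a, Ψ (D'.j a) = D.j (g a)) (x y : RPl Ω (AlgebraicClosure M)) :
    IsPull D.ff D'.ff Φ (push D.ff D'.ff Ψ (Finsupp.single (x.pl D.ff (Pool.Agent.Helper15.JC.iF Ω M)) 1 -
      Finsupp.single (y.pl D.ff (Pool.Agent.Helper15.JC.iF Ω M)) 1))
      (corr D f g x - corr D f g y) := by
  rw [corr_eq D D' f g Φ Ψ hΦ hΨ, corr_eq D D' f g Φ Ψ hΦ hΨ]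
  have h : push D.ff D'.ff Ψ (Finsupp.single (x.pl D.ff (Pool.Agent.Helper15.JC.iF Ω M)) 1 -
      Finsupp.single (y.pl D.ff (Pool.Agent.Helper15.JC.iF Ω M)) 1) =
      push D.ff D'.ff Ψ (Finsupp.single (x.pl D.ff (Pool.Agent.Helper15.JC.iF Ω M)) 1) -
      push D.ff D'.ff Ψ (Finsupp.single (y.pl D.ff (Pool.Agent.Helper15.JC.iF Ω M)) 1) :=
    map_sub (Finsupp.mapDomain.addMonoidHom _) _ _
  rw [h]
  exact (corr_pull D.ff D'.ff Φ Ψ x).sub (corr_pull D.ff D'.ff Φ Ψ y)

/-- The correspondence of the identity. -/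
theorem corr_id {k K F : Type u} [Field k] [IsAlgClosed k] [CharZero k] [Field K] [Algebra k K] [Field F]
    [Algebra k F] {κ : K →ₐ[k] F} [Algebra k Ω] [Algebra K Ω]
    [IsScalarTower k K Ω] [Algebra.IsAlgebraic K Ω] [Algebra k M] [IsScalarTower k Ω M] (D : BC κ Ω M)
    (x : RPl Ω (AlgebraicClosure M)) :
    corr D (AlgHom.id k F) (AlgHom.id k F) x = Finsupp.single (x.pl D.ff (Pool.Agent.Helper15.JC.iF Ω M)) 1 := by
  rw [corr_eq D D (AlgHom.id k F) (AlgHom.id k F) (AlgHom.id Ω M) (AlgHom.id Ω M) (fun a => rfl) (fun a => rfl)]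
  let _ : Unique (Pool.Agent.Helper15.JC.Emb (AlgHom.id Ω M) (AlgHom.id Ω M)) :=
    ⟨⟨⟨Pool.Agent.Helper15.JC.iF Ω M, rfl⟩⟩, fun σ => Subtype.ext σ.2⟩
  rw [finsum_unique]
  rfl

end Pool.Agent.Helper98.JC
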