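import Mathlib
import Pool.Agent.Helper9.NS
import Pool.Agent.Helper98.JC.Cmp
import Pool.Agent.Helper98.JC.Ruled
import Pool.Agent.Helper21.TB.Hrm

/-!
# JC: a harmonic function along the base, at a fixed place of the generic fibre
-/

set_option linter.unusedSectionVars false

namespace Pool.Agent.Helper98.JC

open VC VF Pool.Agent.Helper15.GT Pool.Agent.Helper15.KP Pool.Agent.Helper21.TO Pool.Agent.Helper21.TB
open Pool.Agent.Helper51.VN (Harm)

universe u

/-- A harmonic function along the base, at a fixed place of the generic fibre, is a harmonic function on a finite extension of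
the function field of the base. -/
theorem sec_harm {k K Ω M : Type u} [Field k] [IsAlgClosed k] [CharZero k] [Field K] [Algebra k K]
    (hK : IsFunctionField k K) [Field Ω] [Algebra k Ω] [Algebra K Ω] [IsScalarTower k K Ω]
    [Algebra.IsAlgebraic K Ω] [Field M] [Algebra Ω M] [Algebra k M] [IsScalarTower k Ω M]
    {u : RPl k M → k} (hu : HF k M u) (x : RPl Ω M) :
    ∃ (K' : IntermediateField K Ω) (_ : FiniteDimensional K K') (hK' : IsFunctionField k K')
      (ν : Place k K' → k), Harm hK' ν ∧
        ∀ P : RPl k Ω, u (cmp x P) = ν (P.pl hK' (K'.val.restrictScalars k)) := by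
  classical
  obtain ⟨m, ξ, hξ, φ, hφ, hu⟩ := hu
  obtain ⟨b, hb, r, hr⟩ := exists_vl x ξ hξ
  have : FiniteDimensional K (IntermediateField.adjoin K (Set.range b)) := by
    have : Finite (Set.range b) := Set.finite_range b
    exact IntermediateField.finiteDimensional_adjoin fun x _ => (Algebra.IsAlgebraic.isAlgebraic x).isIntegral
  let K' := IntermediateField.adjoin K (Set.range b)
  have hK' : IsFunctionField k K' := ff_ext hK
  let ι : K' →ₐ[k] Ω := K'.val.restrictScalars k
  have hbK : ∀ i, b i ∈ K' := fun i => IntermediateField.subset_adjoin K _ ⟨i, rfl⟩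
  let b' : Fin m → K' := fun i => ⟨b i, hbK i⟩
  have hb' : b' ≠ 0 := by
    intro h
    apply hb
    funext i
    exact congrArg Subtype.val (congrFun h i)
  have hs : Sat (van k ξ) b' := by
    intro P hP n hn
    have h1 := rs_mvaeval hr (P.map (algebraMap k Ω))
    rw [MvPolynomial.aeval_map_algebraMap, MvPolynomial.aeval_map_algebraMap] at h1
    have h2 : MvPolynomial.aeval ξ P = 0 := hP
    rw [aeval_smul' hn, h2, mul_zero] at h1
    have h3 : MvPolynomial.aeval b P = 0 := h1.unique rs_zero
    have h4 := MvPolynomial.comp_aeval_apply (R := k) b' ι P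
    apply ι.toRingHom.injective
    change ι _ = ι 0
    rw [h4, map_zero]
    exact h3
  refine ⟨K', this, hK', fun Q => φ ((proj k (van k ξ)).eval hK' (ppt b' hb' hs) Q), harm_kills hφ hK' _, fun P => ?_⟩
  obtain ⟨c, hc, s, hcs⟩ := exists_vl (P.comap ι) b' hb'
  have hv : Vl (cmp x P) ξ c := by
    refine ⟨hc, algebraMap Ω M (ι s) * r, fun i => ?_⟩
    rw [rs_cmp]
    refine ⟨ι s * b i, ?_, (rs_comap P ι _ _).mp (hcs i)⟩
    rw [mul_assoc]
    exact (rs_const _).mul (hr i)
  rw [hu, evP_eq hξ hv hv.1 hv.sat]
  beta_reduce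
  congr 1
  symm
  apply peval_eq' hK' _ hb' hs hv.1 hv.sat s
  intro i
  rw [isRes_pl]
  exact (rs_comap P ι _ _).mp (hcs i)

end Pool.Agent.Helper98.JC
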