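import Mathlib
import Pool.Agent.Helper9.NS
import Pool.Agent.Helper98.JC.Sec
import Pool.Agent.Helper79.JC.Defs
import Pool.Agent.Helper21.TB.Pull

/-!
# JC: the block [SEC]
-/

set_option linter.unusedSectionVars false

namespace Pool.Agent.Helper98.JC

open VC VF Pool.Agent.Helper15.GT Pool.Agent.Helper15.KP Pool.Agent.Helper21.TO Pool.Agent.Helper21.TB
open Pool.Agent.Helper51.VN (Harm)
open Pool.Agent.Helper79.JC

universe u

/-- A harmonic function along the base, at a fixed place of the generic fibre, is a harmonic function on a finite Galois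
extension of the function field of the base. -/
theorem sec : StmtSec := by
  intro k K Ω M _ _ _ _ _ _ _ _ _ _ _ _ _ _ _ _ hK u hu x
  classical
  obtain ⟨K', hfin, hK', ν, hν, h⟩ := sec_harm hK hu x
  have hK0 : CharZero K := charZero_of_injective_algebraMap (algebraMap k K).injective
  have halg : IsAlgClosure K Ω := ⟨inferInstance, inferInstance⟩
  have hnΩ : Normal K Ω := IsAlgClosure.normal K Ω
  let K1 : IntermediateField K Ω := IntermediateField.normalClosure K K' Ω
  have hle : K' ≤ K1 := IntermediateField.le_normalClosure K'
  have hfin1 : FiniteDimensional K K1 := normalClosure.is_finiteDimensional K K' Ω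
  have hn : Normal K K1 := normalClosure.normal K K' Ω
  have hg : IsGalois K K1 := ⟨⟩
  have hK1 : IsFunctionField k K1 := ff_ext hK
  let i : K' →ₐ[k] K1 := (IntermediateField.inclusion hle).restrictScalars k
  refine ⟨K1, inferInstance, inferInstance, inferInstance, inferInstance, hfin1, hg, hK1,
    K1.val.restrictScalars k, fun a => rfl, fun Q => ν (Place.comap hK' hK1 i Q), ?_, fun P => ?_⟩
  · exact pull_harm hK1 i hν
  · rw [h P]
    rfl

end Pool.Agent.Helper98.JC
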