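import Mathlib
import Pool.Agent.Helper9.NS
import Pool.Agent.Helper98.JC.Corr

/-!
# JC: pull-back of places in terms of embeddings in an algebraically closed field
-/

set_option linter.unusedSectionVars false

namespace Pool.Agent.Helper98.JC

open VC VF Pool.Agent.Helper15.GT Pool.Agent.Helper15.KP Pool.Agent.Helper21.TO Polynomial IntermediateField

universe u

variable {Ω M E A : Type u} [Field Ω] [IsAlgClosed Ω] [CharZero Ω] [Field M] [Algebra Ω M] [Field E] [Algebra Ω E]
  [Field A] [Algebra Ω A] [IsAlgClosed A]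

/-- An embedding in an algebraically closed field can be extended to a function field. -/
lemma exists_ext_emb (hM : IsFunctionField Ω M) (hE : IsFunctionField Ω E) (Φ : E →ₐ[Ω] M) (e : E →ₐ[Ω] A) :
    ∃ σ : M →ₐ[Ω] A, σ.comp Φ = e := by
  let _ : Algebra E M := Φ.toRingHom.toAlgebra
  have _ : IsScalarTower Ω E M := IsScalarTower.of_algebraMap_eq fun c => (Φ.commutes c).symm
  have hfin : Module.Finite E M := finite_of_isFunctionField hE hM
  let _ : Algebra E A := e.toRingHom.toAlgebra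
  have _ : IsScalarTower Ω E A := IsScalarTower.of_algebraMap_eq fun c => (e.commutes c).symm
  refine ⟨(IsAlgClosed.lift (S := M) (R := E) (M := A)).restrictScalars Ω, ?_⟩
  ext a
  exact (IsAlgClosed.lift (S := M) (R := E) (M := A)).commutes a

lemma finite_ext_emb (hM : IsFunctionField Ω M) (hE : IsFunctionField Ω E) (Φ : E →ₐ[Ω] M) (e : E →ₐ[Ω] A) :
    Finite {σ : M →ₐ[Ω] A // σ.comp Φ = e} := by
  let _ : Algebra E M := Φ.toRingHom.toAlgebra
  have _ : IsScalarTower Ω E M := IsScalarTower.of_algebraMap_eq fun c => (Φ.commutes c).symm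
  have hfin : Module.Finite E M := finite_of_isFunctionField hE hM
  let _ : Algebra E A := e.toRingHom.toAlgebra
  let g : {σ : M →ₐ[Ω] A // σ.comp Φ = e} → (M →ₐ[E] A) := fun f =>
    { f.1.toRingHom with
      commutes' := fun c => DFunLike.congr_fun f.2 c }
  refine Finite.of_injective g fun a b h => Subtype.ext ?_
  ext z
  exact DFunLike.congr_fun h z

/-- The number of extensions of an embedding with a given restriction of the place is the ramification index. -/
theorem card_emb (hM : IsFunctionField Ω M) (hE : IsFunctionField Ω E) (Φ : E →ₐ[Ω] M) (e : E →ₐ[Ω] A)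
    (x : RPl Ω A) (z : Place Ω M) (t : E) (ht : ord (Place.comap hE hM Φ z).ring t = 1)
    (hz : Place.comap hE hM Φ z = x.pl hE e) :
    (Nat.card {σ : {σ : M →ₐ[Ω] A // σ.comp Φ = e} // x.pl hM σ.1 = z} : ℤ) = ord z.ring (Φ t) := by
  classical
  obtain ⟨σ₀, rfl⟩ := exists_ext_emb hM hE Φ e
  set y := Place.comap hE hM Φ z with hy
  have ht0 : t ≠ 0 := by
    rintro rfl
    rw [FF.ord_zero] at ht
    exact zero_ne_one ht
  have htn : t ∈ y.ring.nonunits := (ord_pos_iff hE y ht0).mp (by rw [ht]; exact one_pos)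
  have htt : Transcendental Ω t := transcendental_of_mem_nonunits y ht0 htn
  have hΦ0 : Φ t ≠ 0 := (_root_.map_ne_zero _).mpr ht0
  have hΦn : Φ t ∈ z.ring.nonunits := by
    have h1 : t ∈ (z.ring.comap Φ.toRingHom).nonunits := htn
    rwa [mem_nonunits_comap] at h1
  have hΦt : Transcendental Ω (Φ t) := transcendental_of_mem_nonunits z hΦ0 hΦn
  obtain ⟨N, _, _, _, _, hN, G, _, _, _, hG⟩ := exists_cover hM (Φ t) hΦt
  obtain ⟨ι, hια⟩ := exists_ext_emb hN hM (IsScalarTower.toAlgHom Ω M N) σ₀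
  have hι : ∀ a : M, ι (algebraMap M N a) = σ₀ a := fun a => DFunLike.congr_fun hια a
  set v : Place Ω N := x.pl hN ι with hv
  have hvM : ∀ (g : M →ₐ[Ω] N), Place.comap hM hN g v = x.pl hM (ι.comp g) := fun g => rfl
  let alg : M →ₐ[Ω] N := IsScalarTower.toAlgHom Ω M N
  have hιalg : ι.comp alg = σ₀ := hια
  have hvy : Place.comap hE hN (alg.comp Φ) v = y := by
    rw [hz, ← hιalg]
    rfl
  have hvn : algebraMap M N (Φ t) ∈ v.ring.nonunits := by
    have h1 : t ∈ (v.ring.comap (alg.comp Φ).toRingHom).nonunits := by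
      have h2 : (v.ring.comap (alg.comp Φ).toRingHom) = y.ring := congrArg Place.ring hvy
      rw [h2]
      exact htn
    rwa [mem_nonunits_comap] at h1
  -- only one embedding of `E`
  let _ : Algebra E N := (alg.comp Φ).toRingHom.toAlgebra
  have _ : IsScalarTower Ω E N := IsScalarTower.of_algebraMap_eq fun c => ((alg.comp Φ).commutes c).symm
  have h1 := card_cover hE hN t htt G hG v hvn y
  rw [ht, max_eq_left one_pos.le] at h1
  have h1' : Nat.card {φ : E →ₐ[Ω] N // φ t = algebraMap E N t ∧ Place.comap hE hN φ v = y} = 1 := by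
    exact_mod_cast h1
  have h2 : ∀ φ : E →ₐ[Ω] N, φ t = alg (Φ t) → Place.comap hE hN φ v = y → φ = alg.comp Φ := by
    intro φ h3 h4
    obtain ⟨h5, -⟩ := Nat.card_eq_one_iff_unique.mp h1'
    exact congrArg Subtype.val (h5.elim ⟨φ, h3, h4⟩ ⟨alg.comp Φ, rfl, hvy⟩)
  -- the embeddings of `M`
  have h3 := card_cover hM hN (Φ t) hΦt G hG v hvn z
  rw [max_eq_left ((ord_pos_iff hM z hΦ0).mpr hΦn).le] at h3
  rw [← h3]
  congr 1
  symm
  refine Nat.card_congr (Equiv.ofBijective (fun g : {φ : M →ₐ[Ω] N // φ (Φ t) = algebraMap M N (Φ t) ∧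
      Place.comap hM hN φ v = z} => (⟨⟨ι.comp g.1, ?_⟩, ?_⟩ :
        {σ : {σ : M →ₐ[Ω] A // σ.comp Φ = σ₀.comp Φ} // x.pl hM σ.1 = z})) ⟨?_, ?_⟩)
  · have h4 : g.1.comp Φ = alg.comp Φ := h2 _ g.2.1 (by
      have h5 : Place.comap hE hN (g.1.comp Φ) v = Place.comap hE hM Φ (Place.comap hM hN g.1 v) := rfl
      rw [h5, g.2.2])
    rw [AlgHom.comp_assoc, h4, ← AlgHom.comp_assoc, hιalg]
  · exact g.2.2
  · intro g g' h
    apply Subtype.ext
    ext a
    have h4 := DFunLike.congr_fun (congrArg (fun σ => σ.1.1) h) a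
    exact ι.toRingHom.injective h4
  · rintro ⟨⟨σ, hσ⟩, hσ'⟩
    have h4 : ∀ a, σ a ∈ ι.range := by
      intro a
      have h5 := mem_of_gal (Φ t) G hG ι σ (by rw [hι]; exact DFunLike.congr_fun hσ t) a
      exact h5
    let g : M →ₐ[Ω] N := ((AlgEquiv.ofInjective ι ι.toRingHom.injective).symm : ι.range →ₐ[Ω] N).comp
      (σ.codRestrict ι.range h4)
    have hg : ι.comp g = σ := by
      ext a
      have h5 := (AlgEquiv.ofInjective ι ι.toRingHom.injective).apply_symm_apply (⟨σ a, h4 a⟩ : ι.range)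
      exact congrArg Subtype.val h5
    refine ⟨⟨g, ?_, ?_⟩, ?_⟩
    · apply ι.toRingHom.injective
      change (ι.comp g) (Φ t) = ι (algebraMap M N (Φ t))
      rw [hg, hι]
      exact DFunLike.congr_fun hσ t
    · rw [hvM, hg]
      exact hσ'
    · apply Subtype.ext
      apply Subtype.ext
      exact hg

/-- The pull-back of the restriction of a place is the sum of the restrictions along the extensions of the embedding. -/
theorem emb_pull (hM : IsFunctionField Ω M) (hE : IsFunctionField Ω E) (Φ : E →ₐ[Ω] M) (e : E →ₐ[Ω] A)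
    (x : RPl Ω A) :
    IsPull hM hE Φ (Finsupp.single (x.pl hE e) 1)
      (∑ᶠ σ : {σ : M →ₐ[Ω] A // σ.comp Φ = e}, Finsupp.single (x.pl hM σ.1) 1) := by
  classical
  intro z t ht
  have := finite_ext_emb hM hE Φ e
  let _ : Fintype {σ : M →ₐ[Ω] A // σ.comp Φ = e} := Fintype.ofFinite _
  rw [finsum_eq_sum_of_fintype, Finsupp.finsetSum_apply]
  simp only [Finsupp.single_apply]
  rw [Finset.sum_boole, ← Fintype.card_subtype, ← Nat.card_eq_fintype_card]
  split_ifs with h
  · rw [mul_one]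
    exact card_emb hM hE Φ e x z t ht h.symm
  · rw [mul_zero, Nat.cast_eq_zero, Nat.card_eq_zero]
    left
    constructor
    rintro ⟨σ, hσ⟩
    apply h
    rw [← hσ]
    exact congrArg (fun e : E →ₐ[Ω] A => x.pl hE e) σ.2.symm

lemma IsPull.zero {hM : IsFunctionField Ω M} {hE : IsFunctionField Ω E} {Φ : E →ₐ[Ω] M} : IsPull hM hE Φ 0 0 := by
  intro z t ht
  rw [Finsupp.zero_apply, Finsupp.zero_apply, mul_zero]

lemma IsPull.add {hM : IsFunctionField Ω M} {hE : IsFunctionField Ω E} {Φ : E →ₐ[Ω] M} {D D₁ : Place Ω E →₀ ℤ}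
    {D' D₁' : Place Ω M →₀ ℤ} (h : IsPull hM hE Φ D D') (h₁ : IsPull hM hE Φ D₁ D₁') :
    IsPull hM hE Φ (D + D₁) (D' + D₁') := by
  intro z t ht
  rw [Finsupp.add_apply, Finsupp.add_apply, h z t ht, h₁ z t ht]
  ring

lemma IsPull.sum {hM : IsFunctionField Ω M} {hE : IsFunctionField Ω E} {Φ : E →ₐ[Ω] M} {ι : Type*} (s : Finset ι)
    {D : ι → Place Ω E →₀ ℤ} {D' : ι → Place Ω M →₀ ℤ} (h : ∀ i ∈ s, IsPull hM hE Φ (D i) (D' i)) :
    IsPull hM hE Φ (∑ i ∈ s, D i) (∑ i ∈ s, D' i) := by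
  classical
  induction s using Finset.induction_on with
  | empty => rw [Finset.sum_empty, Finset.sum_empty]; exact IsPull.zero
  | insert a s ha ih =>
    rw [Finset.sum_insert ha, Finset.sum_insert ha]
    exact (h a (Finset.mem_insert_self _ _)).add (ih fun i hi => h i (Finset.mem_insert_of_mem hi))

lemma push_sub (hM : IsFunctionField Ω M) (hE : IsFunctionField Ω E) (Ψ : E →ₐ[Ω] M) (D D' : Place Ω M →₀ ℤ) :
    push hM hE Ψ (D - D') = push hM hE Ψ D - push hM hE Ψ D' :=
  map_sub (Finsupp.mapDomain.addMonoidHom _) _ _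

lemma push_sum (hM : IsFunctionField Ω M) (hE : IsFunctionField Ω E) (Ψ : E →ₐ[Ω] M) {ι : Type*} (s : Finset ι)
    (D : ι → Place Ω M →₀ ℤ) : push hM hE Ψ (∑ i ∈ s, D i) = ∑ i ∈ s, push hM hE Ψ (D i) :=
  map_sum (Finsupp.mapDomain.addMonoidHom (Place.comap hE hM Ψ)) _ _

lemma push_single (hM : IsFunctionField Ω M) (hE : IsFunctionField Ω E) (Ψ : E →ₐ[Ω] M) (σ : M →ₐ[Ω] A) (x : RPl Ω A) :
    push hM hE Ψ (Finsupp.single (x.pl hM σ) 1) = Finsupp.single (x.pl hE (σ.comp Ψ)) 1 := by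
  unfold push
  rw [Finsupp.mapDomain_single]
  rfl

end Pool.Agent.Helper98.JC
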