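import Mathlib
import Pool.Agent.Helper9.NS
import Pool.Agent.Helper98.JC.Emb
import Pool.Agent.Helper79.JC.Ext
import Pool.Agent.Helper15.JD.Defs

/-!
# JD: the composite of two correspondences in terms of embeddings
-/

set_option linter.unusedSectionVars false

namespace Pool.Agent.Helper98.JC

open VC VF Pool.Agent.Helper15.GT Pool.Agent.Helper15.KP Pool.Agent.Helper21.TO
open Pool.Agent.Helper79.JC (BC BC.iA exists_ext ext_unique)
open Pool.Agent.Helper15.JD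

universe u

section

variable {k K F₁ F₂ : Type u} [Field k] [Field K] [Algebra k K] [Field F₁] [Algebra k F₁] [Field F₂] [Algebra k F₂]
  {κ₁ : K →ₐ[k] F₁} {κ₂ : K →ₐ[k] F₂} {Ω M₁ M₂ : Type u} [Field Ω] [Algebra k Ω] [Algebra K Ω] [Field M₁]
  [Algebra k M₁] [Algebra Ω M₁] [IsScalarTower k Ω M₁] [Field M₂] [Algebra k M₂] [Algebra Ω M₂] [IsScalarTower k Ω M₂]
  {B : Type u} [Field B] [Algebra k B] [Algebra Ω B] [IsScalarTower k Ω B]

lemma res_mem (D₁ : BC κ₁ Ω M₁) (D₂ : BC κ₂ Ω M₂) (a : F₁ →ₐ[k] F₂) (a' : M₁ →ₐ[Ω] M₂)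
    (haa : ∀ z, a' (D₁.j z) = D₂.j (a z)) (e' : M₁ →ₐ[Ω] B) (w : F₁ → B) (hw : ∀ z, w z = e' (D₁.j z))
    (τ' : M₂ →ₐ[Ω] B) (h : τ'.comp a' = e') (z : F₁) : ((τ'.restrictScalars k).comp D₂.j) (a z) = w z := by
  rw [hw, ← h]
  change τ' (D₂.j (a z)) = τ' (a' (D₁.j z))
  rw [haa]

/-- Restriction gives a bijection between the embeddings of `M₂` over `M₁` and the embeddings of `F₂` over `F₁`. -/
theorem res_bij (D₁ : BC κ₁ Ω M₁) (D₂ : BC κ₂ Ω M₂) (a : F₁ →ₐ[k] F₂) (ha : a.comp κ₁ = κ₂) (a' : M₁ →ₐ[Ω] M₂)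
    (haa : ∀ z, a' (D₁.j z) = D₂.j (a z)) (e' : M₁ →ₐ[Ω] B) (w : F₁ → B) (hw : ∀ z, w z = e' (D₁.j z)) :
    Function.Bijective (fun τ' : {τ' : M₂ →ₐ[Ω] B // τ'.comp a' = e'} =>
      (⟨(τ'.1.restrictScalars k).comp D₂.j, res_mem D₁ D₂ a a' haa e' w hw τ'.1 τ'.2⟩ :
        {τ : F₂ →ₐ[k] B // ∀ z, τ (a z) = w z})) := by
  constructor
  · intro τ₁ τ₂ h
    apply Subtype.ext
    apply ext_unique D₂
    intro z
    exact DFunLike.congr_fun (congrArg Subtype.val h) z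
  · rintro ⟨τ, hτ⟩
    obtain ⟨τ', h1, h2⟩ := exists_ext D₂ (algebraMap Ω B) (τ : F₂ →+* B) (fun c => by
      have h3 : κ₂ c = a (κ₁ c) := (DFunLike.congr_fun ha c).symm
      change τ (κ₂ c) = _
      rw [h3, hτ, hw, D₁.hj, AlgHom.commutes])
    refine ⟨⟨{ τ' with commutes' := h2 }, ?_⟩, ?_⟩
    · apply ext_unique D₁
      intro z
      change τ' (a' (D₁.j z)) = e' (D₁.j z)
      rw [haa, h1, ← hw]
      exact hτ z
    · apply Subtype.ext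
      ext z
      exact h1 z

end

/-- The composite of two correspondences in terms of embeddings. -/
theorem corM : StmtCorM := by
  intro k K F E _ _ _ _ _ _ _ _ _ κ κE Ω M ME _ _ _ _ _ _ _ _ _ _ _ _ _ _ _ hK D DE U V
  classical
  let iM : M →ₐ[Ω] AlgebraicClosure M := IsScalarTower.toAlgHom Ω M (AlgebraicClosure M)
  -- the two bijections
  let r1 : {τ' : U.N →ₐ[Ω] AlgebraicClosure M // τ'.comp U.a' = iM} ≃
      {τ : U.P →ₐ[k] AlgebraicClosure M // ∀ z : F, τ (U.a z) = D.iA z} :=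
    Equiv.ofBijective _ (res_bij D U.D U.a U.ha U.a' U.ha' iM (fun z => D.iA z) (fun z => rfl))
  let r2 : ∀ τ' : {τ' : U.N →ₐ[Ω] AlgebraicClosure M // τ'.comp U.a' = iM},
      {ρ' : V.N →ₐ[Ω] AlgebraicClosure M // ρ'.comp V.a' = τ'.1.comp U.b'} ≃
        {ρ : V.P →ₐ[k] AlgebraicClosure M // ∀ z : E, ρ (V.a z) = (r1 τ').1 (U.b z)} := fun τ' =>
    Equiv.ofBijective _ (res_bij DE V.D V.a V.ha V.a' V.ha' (τ'.1.comp U.b') (fun z => (r1 τ').1 (U.b z)) (fun z => by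
      change τ'.1 (U.D.j (U.b z)) = τ'.1 (U.b' (DE.j z))
      rw [U.hb']))
  let r : (Σ τ' : {τ' : U.N →ₐ[Ω] AlgebraicClosure M // τ'.comp U.a' = iM},
      {ρ' : V.N →ₐ[Ω] AlgebraicClosure M // ρ'.comp V.a' = τ'.1.comp U.b'}) ≃ Pr D.iA U V :=
    Equiv.sigmaCongr r1 r2
  have hT : Finite {τ' : U.N →ₐ[Ω] AlgebraicClosure M // τ'.comp U.a' = iM} := finite_ext_emb U.D.ff D.ff U.a' iM
  have hR : ∀ τ' : {τ' : U.N →ₐ[Ω] AlgebraicClosure M // τ'.comp U.a' = iM},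
      Finite {ρ' : V.N →ₐ[Ω] AlgebraicClosure M // ρ'.comp V.a' = τ'.1.comp U.b'} := fun τ' =>
    finite_ext_emb V.D.ff DE.ff V.a' _
  refine ⟨Finite.of_equiv _ r, fun σ' hσ' x y => ?_⟩
  let _ : Fintype {τ' : U.N →ₐ[Ω] AlgebraicClosure M // τ'.comp U.a' = iM} := Fintype.ofFinite _
  let _ : ∀ τ' : {τ' : U.N →ₐ[Ω] AlgebraicClosure M // τ'.comp U.a' = iM},
      Fintype {ρ' : V.N →ₐ[Ω] AlgebraicClosure M // ρ'.comp V.a' = τ'.1.comp U.b'} := fun τ' => Fintype.ofFinite _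
  have hσ : ∀ s, σ' (r s) = s.2.1.comp V.b' := by
    intro s
    apply ext_unique D
    intro z
    rw [hσ']
    change s.2.1 (V.D.j (V.b z)) = s.2.1 (V.b' (D.j z))
    rw [V.hb']
  have hsum : ∑ᶠ s, (Finsupp.single (x.pl D.ff (σ' s)) (1 : ℤ) - Finsupp.single (y.pl D.ff (σ' s)) 1) =
      ∑ τ' : {τ' : U.N →ₐ[Ω] AlgebraicClosure M // τ'.comp U.a' = iM},
        ∑ ρ' : {ρ' : V.N →ₐ[Ω] AlgebraicClosure M // ρ'.comp V.a' = τ'.1.comp U.b'},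
          (Finsupp.single (x.pl D.ff (ρ'.1.comp V.b')) (1 : ℤ) - Finsupp.single (y.pl D.ff (ρ'.1.comp V.b')) 1) := by
    have h1 := finsum_eq_of_bijective (f := fun s : (Σ τ' : {τ' : U.N →ₐ[Ω] AlgebraicClosure M // τ'.comp U.a' = iM},
        {ρ' : V.N →ₐ[Ω] AlgebraicClosure M // ρ'.comp V.a' = τ'.1.comp U.b'}) =>
      (Finsupp.single (x.pl D.ff (s.2.1.comp V.b')) (1 : ℤ) - Finsupp.single (y.pl D.ff (s.2.1.comp V.b')) 1))
      (g := fun s => (Finsupp.single (x.pl D.ff (σ' s)) (1 : ℤ) - Finsupp.single (y.pl D.ff (σ' s)) 1))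
      r r.bijective (fun s => by rw [hσ])
    rw [← h1, finsum_eq_sum_of_fintype, Fintype.sum_sigma]
  have hx : ∀ x : RPl Ω (AlgebraicClosure M), IsPull U.D.ff D.ff U.a' (Finsupp.single (x.pl D.ff iM) 1)
      (∑ τ' : {τ' : U.N →ₐ[Ω] AlgebraicClosure M // τ'.comp U.a' = iM}, Finsupp.single (x.pl U.D.ff τ'.1) 1) := by
    intro x
    rw [← finsum_eq_sum_of_fintype]
    exact emb_pull U.D.ff D.ff U.a' iM x
  have hx2 : ∀ x : RPl Ω (AlgebraicClosure M), IsPull V.D.ff DE.ff V.a'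
      (push U.D.ff DE.ff U.b' (∑ τ' : {τ' : U.N →ₐ[Ω] AlgebraicClosure M // τ'.comp U.a' = iM},
        Finsupp.single (x.pl U.D.ff τ'.1) 1))
      (∑ τ' : {τ' : U.N →ₐ[Ω] AlgebraicClosure M // τ'.comp U.a' = iM},
        ∑ ρ' : {ρ' : V.N →ₐ[Ω] AlgebraicClosure M // ρ'.comp V.a' = τ'.1.comp U.b'},
          Finsupp.single (x.pl V.D.ff ρ'.1) 1) := by
    intro x
    rw [push_sum]
    apply IsPull.sum
    intro τ' _
    rw [push_single, ← finsum_eq_sum_of_fintype]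
    exact emb_pull V.D.ff DE.ff V.a' _ x
  refine ⟨push U.D.ff DE.ff U.b' (∑ τ' : {τ' : U.N →ₐ[Ω] AlgebraicClosure M // τ'.comp U.a' = iM},
      Finsupp.single (x.pl U.D.ff τ'.1) 1 - ∑ τ' : {τ' : U.N →ₐ[Ω] AlgebraicClosure M // τ'.comp U.a' = iM},
      Finsupp.single (y.pl U.D.ff τ'.1) 1), ⟨_, (hx x).sub (hx y), rfl⟩,
    ∑ τ' : {τ' : U.N →ₐ[Ω] AlgebraicClosure M // τ'.comp U.a' = iM},
        ∑ ρ' : {ρ' : V.N →ₐ[Ω] AlgebraicClosure M // ρ'.comp V.a' = τ'.1.comp U.b'},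
          Finsupp.single (x.pl V.D.ff ρ'.1) 1 -
      ∑ τ' : {τ' : U.N →ₐ[Ω] AlgebraicClosure M // τ'.comp U.a' = iM},
        ∑ ρ' : {ρ' : V.N →ₐ[Ω] AlgebraicClosure M // ρ'.comp V.a' = τ'.1.comp U.b'},
          Finsupp.single (y.pl V.D.ff ρ'.1) 1, ?_, ?_⟩
  · rw [push_sub]
    exact (hx2 x).sub (hx2 y)
  · rw [hsum, push_sub, push_sum, push_sum, ← Finset.sum_sub_distrib]
    refine Finset.sum_congr rfl fun τ' _ => ?_
    rw [push_sum, push_sum, ← Finset.sum_sub_distrib]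
    refine Finset.sum_congr rfl fun ρ' _ => ?_
    rw [push_single, push_single]

end Pool.Agent.Helper98.JC
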