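import Mathlib
import Pool.Agent.Helper9.NS
import Pool.Agent.Helper98.JC.CorM
import Pool.Agent.Helper15.JD.Cor
import Pool.Agent.Helper79.JD.HarmF
import Pool.Agent.Helper79.JC.Rel
import Pool.Agent.Helper15.JC.CE

/-!
# JD: the rule for the Jacobian, from the block [FAMA]
-/

set_option linter.unusedSectionVars false

namespace Pool.Agent.Helper98.JC

open VC VF Pool.Agent.Helper15.GT Pool.Agent.Helper15.KP Pool.Agent.Helper21.TO Pool.Agent.Helper21.TB
open Pool.Agent.Helper79.JC (BC BC.iA exists_ext ext_unique stmtExt finite_set)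
open Pool.Agent.Helper15.JC (iF exists_iso alg_iA)
open Pool.Agent.Helper15.JD
open Pool.Agent.Helper51.VN (Harm)

universe u

section

variable {k E B P : Type u} [Field k] [Field E] [Algebra k E] [Field B] [Algebra k B] [Field P] [Algebra k P]

/-- The values of an embedding of a finite extension are in the image of the algebraic closure. -/
lemma mem_range_alg (x : AlgebraicClosure E →ₐ[k] B) (a : E →ₐ[k] P) (ha : (a : E →+* P).Finite) (ρ : P →ₐ[k] B)
    (h : ∀ z, ρ (a z) = x (algebraMap E (AlgebraicClosure E) z)) (y : P) : ρ y ∈ x.range := by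
  let _ : Algebra E P := (a : E →+* P).toAlgebra
  have : FiniteDimensional E P := ha
  set q := minpoly E y with hq
  have hs : (q.map (algebraMap E (AlgebraicClosure E))).Splits := IsAlgClosed.splits _
  have hq0 : q.map (algebraMap E (AlgebraicClosure E)) ≠ 0 :=
    (Polynomial.map_ne_zero_iff (algebraMap E (AlgebraicClosure E)).injective).mpr
      (minpoly.ne_zero (Algebra.IsIntegral.isIntegral y))
  have e : (x : AlgebraicClosure E →+* B).comp (algebraMap E (AlgebraicClosure E)) =
      (ρ : P →+* B).comp (algebraMap E P) := by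
    ext z
    exact (h z).symm
  have h1 : q.eval₂ ((x : AlgebraicClosure E →+* B).comp (algebraMap E (AlgebraicClosure E))) (ρ y) = 0 := by
    rw [e]
    have h2 : q.eval₂ (algebraMap E P) y = 0 := minpoly.aeval E y
    have h3 := Polynomial.hom_eval₂ q (algebraMap E P) (ρ : P →+* B) y
    rw [h2, map_zero] at h3
    exact h3.symm
  have h2 : ρ y ∈ ((q.map (algebraMap E (AlgebraicClosure E))).map (x : AlgebraicClosure E →+* B)).roots := by
    rw [Polynomial.mem_roots ((Polynomial.map_ne_zero_iff (x : AlgebraicClosure E →+* B).injective).mpr hq0),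
      Polynomial.IsRoot.def, Polynomial.eval_map, Polynomial.eval₂_map]
    exact h1
  rw [hs.roots_map, Multiset.mem_map] at h2
  obtain ⟨z, -, hz⟩ := h2
  exact ⟨z, hz⟩

lemma nonempty_ext [IsAlgClosed B] (a : E →ₐ[k] P) (ha : (a : E →+* P).Finite) (σ : E →ₐ[k] B) :
    Nonempty {ρ : P →ₐ[k] B // ∀ z, ρ (a z) = σ z} := by
  let _ : Algebra E P := (a : E →+* P).toAlgebra
  have _ : IsScalarTower k E P := IsScalarTower.of_algebraMap_eq fun c => (a.commutes c).symm
  have : FiniteDimensional E P := ha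
  let _ : Algebra E B := (σ : E →+* B).toAlgebra
  have _ : IsScalarTower k E B := IsScalarTower.of_algebraMap_eq fun c => (σ.commutes c).symm
  exact ⟨⟨(IsAlgClosed.lift (S := P) (R := E) (M := B)).restrictScalars k, fun z =>
    (IsAlgClosed.lift (S := P) (R := E) (M := B)).commutes z⟩⟩

lemma xt_mem (x : AlgebraicClosure E →ₐ[k] B) (σ : E →ₐ[k] B) (hx : ∀ z, x (iF k E z) = σ z) (a : E →ₐ[k] P)
    (ρ : P →ₐ[k] AlgebraicClosure E) (hρ : ∀ z, ρ (a z) = iF k E z) (z : E) : (x.comp ρ) (a z) = σ z := by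
  change x (ρ (a z)) = σ z
  rw [hρ, hx]

/-- The embeddings of a finite extension in the algebraic closure and in a larger field. -/
lemma xt_bij (x : AlgebraicClosure E →ₐ[k] B) (σ : E →ₐ[k] B) (hx : ∀ z, x (iF k E z) = σ z) (a : E →ₐ[k] P)
    (ha : (a : E →+* P).Finite) :
    Function.Bijective (fun ρ : {ρ : P →ₐ[k] AlgebraicClosure E // ∀ z, ρ (a z) = iF k E z} =>
      (⟨x.comp ρ.1, xt_mem x σ hx a ρ.1 ρ.2⟩ : {ρ : P →ₐ[k] B // ∀ z, ρ (a z) = σ z})) := by
  constructor
  · intro ρ₁ ρ₂ h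
    apply Subtype.ext
    ext y
    exact x.toRingHom.injective (DFunLike.congr_fun (congrArg Subtype.val h) y)
  · rintro ⟨ρ, hρ⟩
    have h4 : ∀ y, ρ y ∈ x.range := mem_range_alg x a ha ρ (fun z => (hρ z).trans (hx z).symm)
    let g : P →ₐ[k] AlgebraicClosure E := ((AlgEquiv.ofInjective x x.toRingHom.injective).symm :
      x.range →ₐ[k] AlgebraicClosure E).comp (ρ.codRestrict x.range h4)
    have hg : x.comp g = ρ := by
      ext y
      have h5 := (AlgEquiv.ofInjective x x.toRingHom.injective).apply_symm_apply (⟨ρ y, h4 y⟩ : x.range)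
      exact congrArg Subtype.val h5
    refine ⟨⟨g, fun z => ?_⟩, Subtype.ext hg⟩
    apply x.toRingHom.injective
    change (x.comp g) (a z) = x (iF k E z)
    rw [hg, hρ, hx]

end

section

variable {k K F : Type u} [Field k] [IsAlgClosed k] [CharZero k] [Field K] [Algebra k K] [Field F] [Algebra k F]
  {κ : K →ₐ[k] F} {Ω M : Type u} [Field Ω] [Algebra k Ω] [Algebra K Ω] [IsScalarTower k K Ω] [IsAlgClosed Ω]
  [CharZero Ω] [Algebra.IsAlgebraic K Ω] [Field M] [Algebra k M] [Algebra Ω M] [IsScalarTower k Ω M]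

/-- The index sets of the families of embeddings. -/
def Jt (D : BC κ Ω M) {m : ℕ} {E ME : Fin m → Type u} [∀ i, Field (E i)] [∀ i, Algebra k (E i)] [∀ i, Field (ME i)]
    [∀ i, Algebra k (ME i)] [∀ i, Algebra Ω (ME i)] {κE : ∀ i, K →ₐ[k] E i} {DE : ∀ i, BC (κE i) Ω (ME i)}
    (U : ∀ i, Cr D (DE i)) (V : ∀ i, Cr (DE i) D) : Option (Fin m) → Type u
  | none => PUnit
  | some i => Pr D.iA (U i) (V i)

/-- The families of embeddings. -/
noncomputable def St (D : BC κ Ω M) {m : ℕ} {E ME : Fin m → Type u} [∀ i, Field (E i)] [∀ i, Algebra k (E i)]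
    [∀ i, Field (ME i)] [∀ i, Algebra k (ME i)] [∀ i, Algebra Ω (ME i)] {κE : ∀ i, K →ₐ[k] E i}
    {DE : ∀ i, BC (κE i) Ω (ME i)} (U : ∀ i, Cr D (DE i)) (V : ∀ i, Cr (DE i) D) :
    ∀ t : Option (Fin m), Jt D U V t → F →ₐ[k] AlgebraicClosure M
  | none => fun _ => D.iA
  | some i => fun s => s.2.1.comp (V i).b

/-- The functions which are combinations of values along the embeddings are harmonic on the base. -/
theorem harm_jac (hK : IsFunctionField k K) (D : BC κ Ω M) {m : ℕ} {E ME : Fin m → Type u}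
    [∀ i, Field (E i)] [∀ i, Algebra k (E i)] [∀ i, Field (ME i)] [∀ i, Algebra k (ME i)] [∀ i, Algebra Ω (ME i)]
    [∀ i, IsScalarTower k Ω (ME i)] {κE : ∀ i, K →ₐ[k] E i} {DE : ∀ i, BC (κE i) Ω (ME i)}
    (U : ∀ i, Cr D (DE i)) (V : ∀ i, Cr (DE i) D) (N : ℕ)
    (H : ∀ A : Place Ω M →₀ ℤ, (A.sum fun _ n => n) = 0 → ∀ (B : ∀ i, Place Ω (ME i) →₀ ℤ)
      (C : Fin m → Place Ω M →₀ ℤ), (∀ i, (U i).Maps A (B i)) → (∀ i, (V i).Maps (B i) (C i)) →
      (N : ℤ) • A - ∑ i, C i ∈ (curve D.ff).Rat)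
    {u : RPl k F → k} (hu : HF k F u) :
    ∃ ν : Place k K → k, Harm hK ν ∧ ∀ w : RPl k (AlgebraicClosure M),
      (N : k) * u (w.comap D.iA) - ∑ i, ∑ᶠ s : Pr D.iA (U i) (V i), u (w.comap (s.2.1.comp (V i).b)) =
        ν ((w.comap D.iA).pl hK κ) := by
  classical
  have hfin : ∀ i, Finite (Pr D.iA (U i) (V i)) := fun i =>
    (corM k K F (E i) κ (κE i) Ω M (ME i) hK D (DE i) (U i) (V i)).1
  let _ : ∀ i, Fintype (Pr D.iA (U i) (V i)) := fun i => Fintype.ofFinite _
  let _ : ∀ t, Fintype (Jt D U V t) := fun t => match t with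
    | none => (inferInstance : Fintype PUnit)
    | some i => (inferInstance : Fintype (Pr D.iA (U i) (V i)))
  -- the extensions to `M`
  have hcompat : ∀ t (s : Jt D U V t) (a : K), (St D U V t s) (κ a) =
      algebraMap Ω (AlgebraicClosure M) (algebraMap K Ω a) := by
    have h0 : ∀ a : K, D.iA (κ a) = algebraMap Ω (AlgebraicClosure M) (algebraMap K Ω a) := by
      intro a
      change algebraMap M (AlgebraicClosure M) (D.j (κ a)) = _
      rw [D.hj, ← IsScalarTower.algebraMap_apply Ω M (AlgebraicClosure M)]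
    rintro (_ | i) s a
    · exact h0 a
    · rw [← h0]
      change s.2.1 ((V i).b (κ a)) = D.iA (κ a)
      have h1 : (V i).b (κ a) = (V i).a (κE i a) :=
        (DFunLike.congr_fun (V i).hb a).trans (DFunLike.congr_fun (V i).ha a).symm
      have h2 : (U i).b (κE i a) = (U i).a (κ a) :=
        (DFunLike.congr_fun (U i).hb a).trans (DFunLike.congr_fun (U i).ha a).symm
      rw [h1, s.2.2, h2, s.1.2]
  choose σ' hσ' using fun t (s : Jt D U V t) =>
    (stmtExt k K F κ Ω M D (St D U V t s) (hcompat t s)).exists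
  have hnone : ∀ s, σ' none s = IsScalarTower.toAlgHom Ω M (AlgebraicClosure M) := by
    intro s
    apply ext_unique D
    intro z
    rw [hσ']
    rfl
  have key := Pool.Agent.Helper79.JD.harmF k K F κ Ω M hK D (Option (Fin m))
    (fun t => t.elim (N : ℤ) (fun _ => -1)) (Jt D U V) (St D U V) σ' hσ'
  have hperm : ∀ t, ∀ e : AlgebraicClosure M ≃ₐ[k] AlgebraicClosure M, (∀ z : F, e (D.iA z) = D.iA z) →
      ∃ π : Equiv.Perm (Jt D U V t), ∀ s z, e (St D U V t s z) = St D U V t (π s) z := by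
    rintro (_ | i) e he
    · exact ⟨Equiv.refl _, fun s z => he z⟩
    · let g : Pr D.iA (U i) (V i) → Pr D.iA (U i) (V i) := fun s =>
        ⟨⟨(e : AlgebraicClosure M →ₐ[k] AlgebraicClosure M).comp s.1.1, fun z => by
          change e (s.1.1 ((U i).a z)) = D.iA z
          rw [s.1.2, he]⟩, ⟨(e : AlgebraicClosure M →ₐ[k] AlgebraicClosure M).comp s.2.1, fun z => by
          change e (s.2.1 ((V i).a z)) = e (s.1.1 ((U i).b z))
          rw [s.2.2]⟩⟩
      have hg : Function.Injective g := by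
        rintro ⟨⟨τ, hτ⟩, ⟨ρ, hρ⟩⟩ ⟨⟨τ₁, hτ₁⟩, ⟨ρ₁, hρ₁⟩⟩ h
        have h1 : τ = τ₁ := by
          ext z
          apply e.injective
          exact DFunLike.congr_fun (congrArg (fun s : Pr D.iA (U i) (V i) => s.1.1) h) z
        subst h1
        have h2 : ρ = ρ₁ := by
          ext z
          apply e.injective
          exact DFunLike.congr_fun (congrArg (fun s : Pr D.iA (U i) (V i) => s.2.1) h) z
        subst h2
        rfl
      exact ⟨Equiv.ofBijective g (Finite.injective_iff_bijective.mp hg), fun s z => rfl⟩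
  have hrel : ∀ x y : RPl Ω (AlgebraicClosure M),
      ∑ t : Option (Fin m), (t.elim (N : ℤ) (fun _ => -1)) • ∑ s, (Finsupp.single (x.pl D.ff (σ' t s)) (1 : ℤ) -
        Finsupp.single (y.pl D.ff (σ' t s)) 1) ∈ (curve D.ff).Rat := by
    intro x y
    have h1 := fun i => (corM k K F (E i) κ (κE i) Ω M (ME i) hK D (DE i) (U i) (V i)).2
      (fun s => σ' (some i) s) (fun s z => hσ' (some i) s z) x y
    choose B hB hC using h1
    have h2 := H _ (by
      rw [Finsupp.sum_sub_index (fun _ _ _ => rfl), Finsupp.sum_single_index rfl, Finsupp.sum_single_index rfl,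
        sub_self]) B _ hB hC
    rw [Fintype.sum_option]
    have h3 : ∑ s : Jt D U V none, (Finsupp.single (x.pl D.ff (σ' none s)) (1 : ℤ) -
        Finsupp.single (y.pl D.ff (σ' none s)) 1) =
        (Finsupp.single (x.pl D.ff (IsScalarTower.toAlgHom Ω M (AlgebraicClosure M))) (1 : ℤ) -
          Finsupp.single (y.pl D.ff (IsScalarTower.toAlgHom Ω M (AlgebraicClosure M))) 1) := by
      simp only [hnone]
      change ∑ s : PUnit, _ = _
      simp
    have h4 : ∀ i : Fin m, ((some i).elim (N : ℤ) (fun _ => -1)) • ∑ s : Jt D U V (some i),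
        (Finsupp.single (x.pl D.ff (σ' (some i) s)) (1 : ℤ) - Finsupp.single (y.pl D.ff (σ' (some i) s)) 1) =
        -∑ᶠ s : Pr D.iA (U i) (V i), (Finsupp.single (x.pl D.ff (σ' (some i) s)) (1 : ℤ) -
          Finsupp.single (y.pl D.ff (σ' (some i) s)) 1) := by
      intro i
      rw [finsum_eq_sum_of_fintype]
      simp only [Option.elim_some, neg_smul, one_smul]
      rfl
    rw [h3, Finset.sum_congr rfl fun i _ => h4 i, Finset.sum_neg_distrib, ← sub_eq_add_neg]
    exact h2
  obtain ⟨ν, hν, h⟩ := key hperm hrel u hu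
  refine ⟨ν, hν, fun w => ?_⟩
  rw [← h w, Fintype.sum_option, sub_eq_add_neg, ← Finset.sum_neg_distrib]
  congr 1
  · have h1 : ∑ s : Jt D U V none, u (w.comap (St D U V none s)) = u (w.comap D.iA) := by
      change ∑ s : PUnit, u (w.comap D.iA) = _
      simp
    rw [h1]
    simp
  · refine Finset.sum_congr rfl fun i _ => ?_
    rw [finsum_eq_sum_of_fintype]
    simp only [Option.elim_some, Int.cast_neg, Int.cast_one, neg_mul, one_mul]
    rfl

end

/-- The rule for the Jacobian, from the block [FAMA]. -/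
theorem jacA (hF : StmtFamA.{u}) : StmtJacA.{u} := by
  intro k K F _ _ _ _ _ _ _ κ Ω M _ _ _ _ _ _ _ _ _ _ _ hK D m E ME _ _ _ _ _ _ κE DE U V N hN H p hV
  classical
  obtain ⟨e, he⟩ := exists_iso D.iA (alg_iA D)
  have heA : ∀ z, e (iF k F z) = D.iA z := fun z => DFunLike.congr_fun he z
  have heA' : ∀ z, e.symm (D.iA z) = iF k F z := fun z => by rw [← heA, AlgEquiv.symm_apply_apply]
  have hT : ∀ i, Finite {τ : (U i).P →ₐ[k] AlgebraicClosure F // ∀ z : F, τ ((U i).a z) = iF k F z} :=
    fun i => finite_set _ (U i).fa _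
  have hR : ∀ i (σ : E i →ₐ[k] AlgebraicClosure F),
      Finite {ρ : (V i).P →ₐ[k] AlgebraicClosure F // ∀ z, ρ ((V i).a z) = σ z} :=
    fun i σ => finite_set _ (V i).fa _
  have hJ : ∀ i, Finite {ρ : (V i).P →ₐ[k] AlgebraicClosure (E i) // ∀ z, ρ ((V i).a z) = iF k (E i) z} :=
    fun i => finite_set _ (V i).fa _
  let fT : ∀ i, Fintype {τ : (U i).P →ₐ[k] AlgebraicClosure F // ∀ z : F, τ ((U i).a z) = iF k F z} :=
    fun i => Fintype.ofFinite _
  let fR : ∀ i (σ : E i →ₐ[k] AlgebraicClosure F),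
      Fintype {ρ : (V i).P →ₐ[k] AlgebraicClosure F // ∀ z, ρ ((V i).a z) = σ z} := fun i σ => Fintype.ofFinite _
  let fJ : ∀ i, Fintype {ρ : (V i).P →ₐ[k] AlgebraicClosure (E i) // ∀ z, ρ ((V i).a z) = iF k (E i) z} :=
    fun i => Fintype.ofFinite _
  have nJ : ∀ i, Nonempty {ρ : (V i).P →ₐ[k] AlgebraicClosure (E i) // ∀ z, ρ ((V i).a z) = iF k (E i) z} :=
    fun i => nonempty_ext _ (V i).fa _
  choose x hx using fun i (σ : E i →ₐ[k] AlgebraicClosure F) => exists_xt σ
  refine hF k F m E p hV (fun i => ∑ τ : {τ : (U i).P →ₐ[k] AlgebraicClosure F // ∀ z : F, τ ((U i).a z) = iF k F z},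
    Finsupp.single (τ.1.comp (U i).b) 1) (fun i => ?_) x hx
    (fun i => {ρ : (V i).P →ₐ[k] AlgebraicClosure (E i) // ∀ z, ρ ((V i).a z) = iF k (E i) z})
    (fun i ρ => ρ.1.comp (V i).b) (fun i e0 he0 => ?_) N hN (fun u hu => ?_)
  · intro e0 he0
    rw [Finsupp.mapDomain_finsetSum]
    simp only [Finsupp.mapDomain_single]
    let g : {τ : (U i).P →ₐ[k] AlgebraicClosure F // ∀ z : F, τ ((U i).a z) = iF k F z} →
        {τ : (U i).P →ₐ[k] AlgebraicClosure F // ∀ z : F, τ ((U i).a z) = iF k F z} := fun τ =>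
      ⟨(e0 : AlgebraicClosure F →ₐ[k] AlgebraicClosure F).comp τ.1, fun z => by
        change e0 (τ.1 ((U i).a z)) = iF k F z
        rw [τ.2, he0]⟩
    have hg : Function.Injective g := by
      intro τ τ₁ h
      apply Subtype.ext
      ext z
      apply e0.injective
      exact DFunLike.congr_fun (congrArg Subtype.val h) z
    exact Fintype.sum_bijective g (Finite.injective_iff_bijective.mp hg) _ _ fun τ => rfl
  · let g : {ρ : (V i).P →ₐ[k] AlgebraicClosure (E i) // ∀ z, ρ ((V i).a z) = iF k (E i) z} →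
        {ρ : (V i).P →ₐ[k] AlgebraicClosure (E i) // ∀ z, ρ ((V i).a z) = iF k (E i) z} := fun ρ =>
      ⟨(e0 : AlgebraicClosure (E i) →ₐ[k] AlgebraicClosure (E i)).comp ρ.1, fun z => by
        change e0 (ρ.1 ((V i).a z)) = iF k (E i) z
        rw [ρ.2, he0]⟩
    have hg : Function.Injective g := by
      intro τ τ₁ h
      apply Subtype.ext
      ext z
      apply e0.injective
      exact DFunLike.congr_fun (congrArg Subtype.val h) z
    exact ⟨Equiv.ofBijective g (Finite.injective_iff_bijective.mp hg), fun s z => rfl⟩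
  · obtain ⟨ν, hν, h⟩ := harm_jac hK D U V N H hu
    refine ⟨fun w => ν ((w.comap (iF k F)).pl hK κ), fun a ha => ?_, fun w => ?_⟩
    · have h1 := ha.2 K hK (Finsupp.single ((iF k F).comp κ) 1) (by
        intro e0 he0
        rw [Finsupp.mapDomain_single]
        congr 1
        ext z
        exact he0 (κ z))
      rw [Finsupp.sum_single_index (by rw [zero_smul]), one_smul] at h1
      have h2 := harm_curve hν _ h1
      rw [Finsupp.linearCombination_mapDomain] at h2
      exact h2
    · have h1 := h (w.comap (e.symm : AlgebraicClosure M →ₐ[k] AlgebraicClosure F))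
      have h2 : (w.comap (e.symm : AlgebraicClosure M →ₐ[k] AlgebraicClosure F)).comap D.iA = w.comap (iF k F) := by
        rw [RPl.comap_comap]
        congr 1
        ext z
        exact heA' z
      rw [h2, sub_eq_iff_eq_add, add_comm] at h1
      rw [h1]
      congr 1
      refine Finset.sum_congr rfl fun i _ => ?_
      -- the sum over the embeddings
      have h3 : ∀ G : (E i →ₐ[k] AlgebraicClosure F) → k,
          (∑ τ : {τ : (U i).P →ₐ[k] AlgebraicClosure F // ∀ z : F, τ ((U i).a z) = iF k F z},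
            Finsupp.single (τ.1.comp (U i).b) (1 : ℤ)).sum (fun σ n => (n : k) * G σ) =
          ∑ τ : {τ : (U i).P →ₐ[k] AlgebraicClosure F // ∀ z : F, τ ((U i).a z) = iF k F z},
            G (τ.1.comp (U i).b) := by
        intro G
        rw [← Finsupp.sum_finsetSum_index (fun σ => by rw [Int.cast_zero, zero_mul])
          (fun σ a b => by rw [Int.cast_add, add_mul])]
        refine Finset.sum_congr rfl fun τ _ => ?_
        rw [Finsupp.sum_single_index (by rw [Int.cast_zero, zero_mul]), Int.cast_one, one_mul]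
      rw [h3]
      have h4 : ∀ τ : {τ : (U i).P →ₐ[k] AlgebraicClosure F // ∀ z : F, τ ((U i).a z) = iF k F z},
          ∑ s : {ρ : (V i).P →ₐ[k] AlgebraicClosure (E i) // ∀ z, ρ ((V i).a z) = iF k (E i) z},
            u (w.comap ((x i (τ.1.comp (U i).b)).comp (s.1.comp (V i).b))) =
          ∑ ρ : {ρ : (V i).P →ₐ[k] AlgebraicClosure F // ∀ z, ρ ((V i).a z) = (τ.1.comp (U i).b) z},
            u (w.comap (ρ.1.comp (V i).b)) := by
        intro τ
        exact Fintype.sum_bijective _ (xt_bij (x i (τ.1.comp (U i).b)) (τ.1.comp (U i).b) (hx i _) (V i).a (V i).fa) _ _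
          fun s => rfl
      rw [Finset.sum_congr rfl fun τ _ => h4 τ]
      rw [← Fintype.sum_sigma (fun s : (Σ τ : {τ : (U i).P →ₐ[k] AlgebraicClosure F // ∀ z : F, τ ((U i).a z) = iF k F z},
        {ρ : (V i).P →ₐ[k] AlgebraicClosure F // ∀ z, ρ ((V i).a z) = (τ.1.comp (U i).b) z}) =>
          u (w.comap (s.2.1.comp (V i).b)))]
      let g : (Σ τ : {τ : (U i).P →ₐ[k] AlgebraicClosure F // ∀ z : F, τ ((U i).a z) = iF k F z},
          {ρ : (V i).P →ₐ[k] AlgebraicClosure F // ∀ z, ρ ((V i).a z) = (τ.1.comp (U i).b) z}) →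
          Pr D.iA (U i) (V i) := fun s =>
        ⟨⟨(e : AlgebraicClosure F →ₐ[k] AlgebraicClosure M).comp s.1.1, fun z => by
          change e (s.1.1 ((U i).a z)) = D.iA z
          rw [s.1.2, heA]⟩, ⟨(e : AlgebraicClosure F →ₐ[k] AlgebraicClosure M).comp s.2.1, fun z => by
          change e (s.2.1 ((V i).a z)) = e (s.1.1 ((U i).b z))
          rw [s.2.2]
          rfl⟩⟩
      have hg : Function.Bijective g := by
        constructor
        · rintro ⟨⟨τ, hτ⟩, ⟨ρ, hρ⟩⟩ ⟨⟨τ₁, hτ₁⟩, ⟨ρ₁, hρ₁⟩⟩ h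
          have h1 : τ = τ₁ := by
            ext z
            apply e.injective
            exact DFunLike.congr_fun (congrArg (fun s : Pr D.iA (U i) (V i) => s.1.1) h) z
          subst h1
          have h2 : ρ = ρ₁ := by
            ext z
            apply e.injective
            exact DFunLike.congr_fun (congrArg (fun s : Pr D.iA (U i) (V i) => s.2.1) h) z
          subst h2
          rfl
        · rintro ⟨⟨τ, hτ⟩, ⟨ρ, hρ⟩⟩
          refine ⟨⟨⟨(e.symm : AlgebraicClosure M →ₐ[k] AlgebraicClosure F).comp τ, fun z => ?_⟩,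
            ⟨(e.symm : AlgebraicClosure M →ₐ[k] AlgebraicClosure F).comp ρ, fun z => ?_⟩⟩, ?_⟩
          · change e.symm (τ ((U i).a z)) = iF k F z
            rw [hτ, heA']
          · change e.symm (ρ ((V i).a z)) = e.symm (τ ((U i).b z))
            rw [hρ]
          · have h5 : (e : AlgebraicClosure F →ₐ[k] AlgebraicClosure M).comp
                ((e.symm : AlgebraicClosure M →ₐ[k] AlgebraicClosure F).comp τ) = τ := by
              ext z
              exact e.apply_symm_apply _
            have h6 : (e : AlgebraicClosure F →ₐ[k] AlgebraicClosure M).comp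
                ((e.symm : AlgebraicClosure M →ₐ[k] AlgebraicClosure F).comp ρ) = ρ := by
              ext z
              exact e.apply_symm_apply _
            have key : ∀ (τ' : (U i).P →ₐ[k] AlgebraicClosure M) (hτ' : ∀ z, τ' ((U i).a z) = D.iA z)
                (ρ' : (V i).P →ₐ[k] AlgebraicClosure M) (hρ' : ∀ z, ρ' ((V i).a z) = τ' ((U i).b z)),
                τ' = τ → ρ' = ρ → (⟨⟨τ', hτ'⟩, ⟨ρ', hρ'⟩⟩ : Pr D.iA (U i) (V i)) = ⟨⟨τ, hτ⟩, ⟨ρ, hρ⟩⟩ := by
              rintro _ _ _ _ rfl rfl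
              rfl
            exact key _ _ _ _ h5 h6
      rw [← finsum_eq_sum_of_fintype]
      refine (finsum_eq_of_bijective g hg fun s => ?_).symm
      have h7 : (w.comap (e.symm : AlgebraicClosure M →ₐ[k] AlgebraicClosure F)).comap ((g s).2.1.comp (V i).b) =
          w.comap (s.2.1.comp (V i).b) := by
        rw [RPl.comap_comap]
        congr 1
        ext z
        exact e.symm_apply_apply _
      rw [h7]

end Pool.Agent.Helper98.JC
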